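import Pool.Agent.Run7.h442.B2.Fin
import Pool.Agent.Run7.h442.BA.All

/-!
All parts, dimension two.
-/

set_option autoImplicit false

namespace Pool.Agent.Run7.h442.B2.Al

open Pool.Agent.W792.LL Pool.Agent.W792.WA Pool.Agent.N659.HB Pool.Agent.Run7.h442.BA
open Pool.Agent.Run7.h442.BA.Al Pool.Agent.Run7.h442.B2

theorem torT2 : S_TOR2 := B2.tor B2.Det.main cntl cyl

theorem gap2 : S_GAPP2 := B2.gapp torT2 lipz xb tra cyl Pool.Agent.N659.HB.Al.zr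
  Pool.Agent.N659.HB.Al.ux Pool.Agent.W792.WA.Al.cx Pool.Agent.W792.WA.Al.psi
  Pool.Agent.W792.WA.Al.fix Pool.Agent.W792.WA.Al.cay

theorem bkaT2 : S_BKA2 := B2.bka gap2 Pool.Agent.N659.HB.Al.chk Pool.Agent.W792.WA.Al.aeqk
  Pool.Agent.W792.WA.Al.aff Pool.Agent.W792.WA.Al.cay WSP.main
  (Pool.Agent.W792.WA.Al.exists_lv Pool.Agent.W915.WA.WH.main Pool.Agent.W332.WA.WB.main
    Pool.Agent.W792.WA.Al.wd)

end Pool.Agent.Run7.h442.B2.Al
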