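import Pool.Agent.Run7.h442.BA.Stm

/-! # Dimension two: the self-consistent equation, without an upper bound of the counting function
(adapted from the piece of helper298) -/

set_option autoImplicit false

namespace Pool.Agent.Run7.h442.B2.Det

open Pool.Agent.Run7.h442.BA Finset

/-- The self-consistent equation. -/
def S_DET2 : Prop :=
  ∀ c₀ : ℝ, 0 < c₀ → ∃ c₁ c₂ : ℝ, 0 < c₁ ∧ 0 < c₂ ∧ ∀ (ι : Type) [Fintype ι] [Nonempty ι]
    (K : ι → ℝ) (X Sg : ι → ℂ) (y v2 eX D₀ A S ζ₁ ℓ : ℝ) (gb : ℂ), 0 ≤ y → y ≤ 1 → 0 < v2 →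
    v2 ≤ 1 → 0 < eX → eX ≤ c₂ → 0 ≤ D₀ → 4 * D₀ ≤ eX → 0 < A → 0 < S → 1 ≤ ℓ →
    (∀ k, ‖X k - ((K k : ℂ) - y * Complex.I)‖ ≤ eX) → (∀ k, y ≤ -(X k).im) →
    (∀ k, A / (|K k| + S) ^ 2 ≤ -(X k).im) → (∀ k, (Sg k).im ≤ 0) →
    (Fintype.card ι : ℂ) * gb = ∑ k, 1 / (X k + Sg k) → (∀ k, ‖Sg k + v2 * gb‖ ≤ D₀) →
    v2 * ‖gb‖ ≤ ζ₁ → ζ₁ ≤ c₂ →
    (∀ ζ t : ℝ, |ζ| ≤ ζ₁ → eX ≤ t → t ≤ 1 →
      c₀ * t * Fintype.card ι ≤ ((Finset.univ.filter fun k => |K k - ζ| ≤ t).card : ℝ)) →
    (∀ ζ : ℝ, ∑ k, 1 / (|K k - ζ| + eX) ≤ ℓ * Fintype.card ι) →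
    v2 * ℓ ≤ c₂ * S → eX ^ 2 * v2 * ℓ ≤ c₂ * A → eX ≤ c₂ * S →
    eX ^ 2 * S ^ 2 ≤ c₂ * (v2 * A) →
      c₁ ≤ gb.im ∧ ‖gb‖ ≤ ℓ / c₁

theorem main : S_DET2 := by
  intro c₀ hc₀
  obtain ⟨c₂, hc2, k1, k2, k3⟩ : ∃ c₂ : ℝ, 0 < c₂ ∧ c₂ ≤ 1 / 12 ∧ 576 * c₂ ≤ 1 ∧
      96 * c₂ ≤ c₀ := by
    refine ⟨min (1 / 12) (min (1 / 576) (c₀ / 96)), by positivity, min_le_left _ _, ?_, ?_⟩
    · have : min (1 / 12) (min (1 / 576) (c₀ / 96)) ≤ 1 / 576 :=
        (min_le_right _ _).trans (min_le_left _ _)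
      linarith
    · have : min (1 / 12) (min (1 / 576) (c₀ / 96)) ≤ c₀ / 96 :=
        (min_le_right _ _).trans (min_le_right _ _)
      linarith
  refine ⟨min (6 * c₀ / 169) (1 / 6), c₂, by positivity, hc2, ?_⟩
  intro ι _ _ K X Sg y v2 eX D₀ A S ζ₁ ℓ gb hy0 hy1 hv0 hv1 he0 he1 hD0 hD1 hA hS hℓ hX hXy hXA
    hSg hgb hSgv hgz hz hlow hsum h1 h2 h3 h4
  have hN : (0 : ℝ) < Fintype.card ι := by exact_mod_cast Fintype.card_pos
  set N : ℝ := ((Fintype.card ι : ℕ) : ℝ) with hNdef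
  set Z : ι → ℂ := fun k => X k + Sg k with hZ
  have hKS : ∀ k, 0 < (|K k| + S) := fun k => by positivity
  have b1 : ∀ k, A / (|K k| + S) ^ 2 ≤ -(Z k).im := fun k => by
    have h5 := hXA k
    have h6 := hSg k
    simp only [hZ, Complex.add_im]
    linarith
  have bpos : ∀ k, 0 < -(Z k).im := fun k =>
    lt_of_lt_of_le (div_pos hA (pow_pos (hKS k) 2)) (b1 k)
  have Zne : ∀ k, Z k ≠ 0 := fun k h => by
    have := bpos k
    rw [h] at this
    simp at this
  have Zpos : ∀ k, 0 < ‖Z k‖ := fun k => norm_pos_iff.2 (Zne k)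
  have him : N * gb.im = ∑ k, -(Z k).im / ‖Z k‖ ^ 2 := by
    have h5 := congrArg Complex.im hgb
    rw [Complex.im_sum] at h5
    have h6 : ((Fintype.card ι : ℂ) * gb).im = N * gb.im := by
      rw [hNdef, ← Complex.ofReal_natCast, Complex.im_ofReal_mul]
    rw [h6] at h5
    rw [h5]
    apply Finset.sum_congr rfl
    intro k _
    rw [one_div, Complex.inv_im, Complex.normSq_eq_norm_sq]
  have hnorm : N * ‖gb‖ ≤ ∑ k, 1 / ‖Z k‖ := by
    have h5 := congrArg norm hgb
    rw [norm_mul, Complex.norm_natCast] at h5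
    rw [hNdef, h5]
    refine (norm_sum_le _ _).trans (le_of_eq ?_)
    apply Finset.sum_congr rfl
    intro k _
    rw [norm_div, norm_one]
  have hterm : ∀ k, 0 ≤ -(Z k).im / ‖Z k‖ ^ 2 := fun k =>
    div_nonneg (bpos k).le (by positivity)
  have himpos : 0 ≤ gb.im := by
    have : 0 ≤ N * gb.im := by rw [him]; exact Finset.sum_nonneg fun k _ => hterm k
    exact nonneg_of_mul_nonneg_right this hN
  -- lower bounds for the imaginary part
  have hlb : ∀ (t β : ℝ), 0 ≤ β → eX ≤ t → t ≤ 1 →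
      (∀ k, |K k - v2 * gb.re| ≤ t → β ≤ -(Z k).im / ‖Z k‖ ^ 2) → c₀ * t * β ≤ gb.im := by
    intro t β hβ ht ht1 hk
    have hζ : |v2 * gb.re| ≤ ζ₁ := by
      rw [abs_mul, abs_of_pos hv0]
      exact (mul_le_mul_of_nonneg_left (Complex.abs_re_le_norm gb) hv0.le).trans hgz
    have h5 := hlow (v2 * gb.re) t hζ ht ht1
    have h6 : ((Finset.univ.filter fun k => |K k - v2 * gb.re| ≤ t).card : ℝ) * β ≤ N * gb.im := by
      rw [him, ← nsmul_eq_mul]
      refine le_trans (Finset.card_nsmul_le_sum _ _ _ ?_)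
        (Finset.sum_le_univ_sum_of_nonneg hterm)
      intro k hk'
      exact hk k (Finset.mem_filter.1 hk').2
    have h7 : c₀ * t * N * β ≤ N * gb.im := (mul_le_mul_of_nonneg_right h5 hβ).trans h6
    have h8 : N * (c₀ * t * β) ≤ N * gb.im := by linarith
    exact le_of_mul_le_mul_left h8 hN
  -- approximation of `Z`
  set ζ : ℝ := v2 * gb.re with hζdef
  set Y : ℝ := v2 * gb.im with hYdef
  have hY0 : 0 ≤ Y := mul_nonneg hv0.le himpos
  have hζn : |ζ| ≤ v2 * ‖gb‖ := by
    rw [hζdef, abs_mul, abs_of_pos hv0]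
    exact mul_le_mul_of_nonneg_left (Complex.abs_re_le_norm gb) hv0.le
  have hap : ∀ k, ‖Z k - (((K k - ζ : ℝ) : ℂ) - ((y + Y : ℝ) : ℂ) * Complex.I)‖ ≤ 5 / 4 * eX := by
    intro k
    have e1 : Z k - (((K k - ζ : ℝ) : ℂ) - ((y + Y : ℝ) : ℂ) * Complex.I) =
        (X k - ((K k : ℂ) - y * Complex.I)) + (Sg k + v2 * gb) := by
      have e2 : gb = (gb.re : ℂ) + gb.im * Complex.I := (Complex.re_add_im gb).symm
      rw [hZ, hζdef, hYdef]
      push_cast
      linear_combination (-(v2 : ℂ)) * e2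
    rw [e1]
    refine (norm_add_le _ _).trans ?_
    have := hX k
    have := hSgv k
    linarith
  have hb2 : ∀ k, y + Y - D₀ ≤ -(Z k).im := by
    intro k
    have h5 := (Complex.abs_im_le_norm (Sg k + v2 * gb)).trans (hSgv k)
    rw [Complex.add_im, Complex.im_ofReal_mul, abs_le] at h5
    have h6 := hXy k
    simp only [hZ, Complex.add_im]
    have : v2 * gb.im = Y := rfl
    linarith [h5.2]
  have hZup : ∀ k, ‖Z k‖ ≤ |K k - ζ| + (y + Y) + 5 / 4 * eX := by
    intro k
    have e1 : Z k = (((K k - ζ : ℝ) : ℂ) - ((y + Y : ℝ) : ℂ) * Complex.I) +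
        (Z k - (((K k - ζ : ℝ) : ℂ) - ((y + Y : ℝ) : ℂ) * Complex.I)) := by ring
    rw [e1]
    refine (norm_add_le _ _).trans (add_le_add ((norm_sub_le _ _).trans ?_) (hap k))
    rw [norm_mul, Complex.norm_I, mul_one, Complex.norm_real, Complex.norm_real,
      Real.norm_eq_abs, Real.norm_eq_abs, abs_of_nonneg (by linarith : 0 ≤ y + Y)]
  have hZlo : ∀ k, |K k - ζ| - 5 / 4 * eX ≤ ‖Z k‖ := by
    intro k
    have h5 := (Complex.abs_re_le_norm _).trans (hap k)
    have e1 : (Z k - (((K k - ζ : ℝ) : ℂ) - ((y + Y : ℝ) : ℂ) * Complex.I)).re =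
        (Z k).re - (K k - ζ) := by
      rw [Complex.sub_re, Complex.sub_re, Complex.ofReal_re, Complex.re_ofReal_mul, Complex.I_re]
      ring
    rw [e1] at h5
    have h6 := Complex.abs_re_le_norm (Z k)
    have h7 : |K k - ζ| ≤ |(Z k).re| + |(Z k).re - (K k - ζ)| := by
      have : K k - ζ = (Z k).re - ((Z k).re - (K k - ζ)) := by ring
      calc |K k - ζ| = |(Z k).re - ((Z k).re - (K k - ζ))| := by rw [← this]
        _ ≤ _ := abs_sub _ _
    linarith
  have hZb : ∀ k, -(Z k).im ≤ ‖Z k‖ := fun k =>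
    (neg_le_abs _).trans (Complex.abs_im_le_norm (Z k))
  rcases le_or_gt eX (y + Y) with hτ | hτ
  · -- the good case
    constructor
    · have h5 : 6 * c₀ / 169 ≤ gb.im := by
        have hτpos : 0 < y + Y := lt_of_lt_of_le he0 hτ
        have hb3 : ∀ k, 3 / 4 * (y + Y) ≤ -(Z k).im := fun k => by
          have := hb2 k; linarith
        have hY1 : Y ≤ c₂ := by
          have : v2 * gb.im ≤ v2 * ‖gb‖ := mul_le_mul_of_nonneg_left
            ((le_abs_self _).trans (Complex.abs_im_le_norm gb)) hv0.le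
          linarith
        have hk : ∀ k, |K k - ζ| ≤ min (y + Y) 1 →
            12 / (169 * (y + Y)) ≤ -(Z k).im / ‖Z k‖ ^ 2 := by
          intro k hk
          have h6 : |K k - ζ| ≤ y + Y := hk.trans (min_le_left _ _)
          have h7 : ‖Z k‖ ≤ 13 / 4 * (y + Y) := by have := hZup k; linarith
          have h8 : ‖Z k‖ ^ 2 ≤ (13 / 4 * (y + Y)) ^ 2 := pow_le_pow_left₀ (Zpos k).le h7 2
          calc 12 / (169 * (y + Y)) = (3 / 4 * (y + Y)) / (13 / 4 * (y + Y)) ^ 2 := by
                field_simp; norm_num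
            _ ≤ -(Z k).im / ‖Z k‖ ^ 2 :=
              div_le_div₀ (bpos k).le (hb3 k) (pow_pos (Zpos k) 2) h8
        have h9 := hlb (min (y + Y) 1) (12 / (169 * (y + Y))) (by positivity)
          (le_min hτ (by linarith)) (min_le_right _ _) hk
        refine le_trans ?_ h9
        rcases le_total (y + Y) 1 with h10 | h10
        · rw [min_eq_left h10]
          have e1 : c₀ * (y + Y) * (12 / (169 * (y + Y))) = 12 * c₀ / 169 := by field_simp
          rw [e1]
          have : 0 < c₀ / 169 := by positivity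
          linarith
        · rw [min_eq_right h10]
          have h11 : y + Y ≤ 2 := by linarith
          have h12 : 12 / (169 * (y + Y)) ≥ 12 / (169 * 2) := by
            apply div_le_div_of_nonneg_left (by norm_num) (by positivity)
            linarith
          have h13 := mul_le_mul_of_nonneg_left h12 hc₀.le
          linarith
      exact (min_le_left _ _).trans h5
    · have hb3 : ∀ k, 3 / 4 * eX ≤ ‖Z k‖ := fun k => by
        have := hb2 k; have := hZb k; linarith
      have h6 : ∀ k, 1 / ‖Z k‖ ≤ 6 * (1 / (|K k - ζ| + eX)) := by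
        intro k
        have hp : 0 < |K k - ζ| + eX := by positivity
        have h7 : (|K k - ζ| + eX) / 6 ≤ ‖Z k‖ := by
          have := hb3 k
          have := hZlo k
          rcases le_total (|K k - ζ|) (5 / 2 * eX) with h8 | h8 <;> linarith
        have h8 : 6 * (1 / (|K k - ζ| + eX)) = 1 / ((|K k - ζ| + eX) / 6) := by
          field_simp
        rw [h8]
        exact one_div_le_one_div_of_le (by positivity) h7
      have h7 : N * ‖gb‖ ≤ 6 * (ℓ * N) := by
        refine hnorm.trans ((Finset.sum_le_sum fun k _ => h6 k).trans ?_)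
        rw [← Finset.mul_sum]
        exact mul_le_mul_of_nonneg_left (hsum ζ) (by norm_num)
      have h8 : ‖gb‖ ≤ 6 * ℓ := by
        have : N * ‖gb‖ ≤ N * (6 * ℓ) := by linarith
        exact le_of_mul_le_mul_left this hN
      have hmin : 0 < min (6 * c₀ / 169) (1 / 6 : ℝ) := by positivity
      rw [le_div_iff₀ hmin]
      calc ‖gb‖ * min (6 * c₀ / 169) (1 / 6) ≤ (6 * ℓ) * (1 / 6) :=
            mul_le_mul h8 (min_le_right _ _) hmin.le (by linarith)
        _ = ℓ := by ring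
  · -- the bad case is impossible
    exfalso
    have hYe : Y < eX := by linarith
    have hζS : |ζ| ≤ S := by
      by_contra hc
      push Not at hc
      have hζ0 : 0 < |ζ| := hS.trans hc
      -- near part
      set near := Finset.univ.filter fun k => |K k - ζ| ≤ 3 * eX with hnear
      have hn1 : ∀ k ∈ near, A / (9 * ζ ^ 2) ≤ -(Z k).im := by
        intro k hk
        have hk' : |K k - ζ| ≤ 3 * eX := (Finset.mem_filter.1 hk).2
        refine le_trans ?_ (b1 k)
        have h5 : |K k| ≤ |ζ| + 3 * eX := by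
          calc |K k| = |ζ + (K k - ζ)| := by ring_nf
            _ ≤ |ζ| + |K k - ζ| := abs_add_le _ _
            _ ≤ _ := by linarith
        have h6 : eX ≤ S / 12 := by
          have : c₂ * S ≤ 1 / 12 * S := mul_le_mul_of_nonneg_right k1 hS.le
          linarith
        have h7 : |K k| + S ≤ 3 * |ζ| := by linarith
        apply div_le_div_of_nonneg_left hA.le (pow_pos (hKS k) 2)
        calc (|K k| + S) ^ 2 ≤ (3 * |ζ|) ^ 2 := pow_le_pow_left₀ (hKS k).le h7 2
          _ = 9 * ζ ^ 2 := by rw [mul_pow, sq_abs]; norm_num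
      have hζ2 : 0 < 9 * ζ ^ 2 := by
        have := sq_abs ζ
        have : 0 < |ζ| ^ 2 := by positivity
        linarith
      have hβ : 0 < A / (9 * ζ ^ 2) := div_pos hA hζ2
      have hn2 : (∑ k ∈ near, 1 / ‖Z k‖) ^ 2 ≤ (near.card : ℝ) * (N * gb.im / (A / (9 * ζ ^ 2))) := by
        refine (sq_sum_le_card_mul_sum_sq (s := near) (f := fun k => 1 / ‖Z k‖)).trans ?_
        apply mul_le_mul_of_nonneg_left _ (by positivity)
        rw [le_div_iff₀ hβ, him, Finset.sum_mul]
        refine le_trans (Finset.sum_le_sum (g := fun k => -(Z k).im / ‖Z k‖ ^ 2) ?_)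
          (Finset.sum_le_univ_sum_of_nonneg hterm)
        intro k hk
        have h5 := hn1 k hk
        have h6 : (1 / ‖Z k‖) ^ 2 * (A / (9 * ζ ^ 2)) = (A / (9 * ζ ^ 2)) / ‖Z k‖ ^ 2 := by
          rw [one_div, inv_pow]; ring
        rw [h6]
        exact div_le_div_of_nonneg_right h5 (by positivity)
      have hn3 : (near.card : ℝ) ≤ 4 / 3 * ℓ * (3 * eX) * N := by
        have h5 : (near.card : ℝ) * (1 / (4 * eX)) ≤ ℓ * N := by
          refine le_trans ?_ (hsum ζ)
          rw [← nsmul_eq_mul]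
          refine le_trans (Finset.card_nsmul_le_sum _ _ _ ?_)
            (Finset.sum_le_univ_sum_of_nonneg (s := near)
              (f := fun k => 1 / (|K k - ζ| + eX)) fun k => by positivity)
          intro k hk
          have hk' : |K k - ζ| ≤ 3 * eX := (Finset.mem_filter.1 hk).2
          apply one_div_le_one_div_of_le (by positivity)
          linarith
        have h6 : (near.card : ℝ) * (1 / (4 * eX)) * (4 * eX) ≤ ℓ * N * (4 * eX) :=
          mul_le_mul_of_nonneg_right h5 (by positivity)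
        have h7 : (near.card : ℝ) * (1 / (4 * eX)) * (4 * eX) = near.card := by field_simp
        rw [h7] at h6
        linarith
      have hn4 : v2 * ∑ k ∈ near, 1 / ‖Z k‖ ≤ |ζ| / 4 * N := by
        have hs0 : 0 ≤ ∑ k ∈ near, 1 / ‖Z k‖ := Finset.sum_nonneg fun k _ => by positivity
        apply (sq_le_sq₀ (mul_nonneg hv0.le hs0) (by positivity)).1
        have hζζ : |ζ| ^ 2 = ζ ^ 2 := sq_abs ζ
        have hζp : 0 < ζ ^ 2 := by rw [← hζζ]; positivity
        calc (v2 * ∑ k ∈ near, 1 / ‖Z k‖) ^ 2 = v2 ^ 2 * (∑ k ∈ near, 1 / ‖Z k‖) ^ 2 := by ring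
          _ ≤ v2 ^ 2 * ((near.card : ℝ) * (N * gb.im / (A / (9 * ζ ^ 2)))) :=
              mul_le_mul_of_nonneg_left hn2 (by positivity)
          _ ≤ v2 ^ 2 * ((4 / 3 * ℓ * (3 * eX) * N) * (N * gb.im / (A / (9 * ζ ^ 2)))) := by
              apply mul_le_mul_of_nonneg_left _ (by positivity)
              exact mul_le_mul_of_nonneg_right hn3 (by positivity)
          _ = 36 * ζ ^ 2 * N ^ 2 * (eX * v2 * ℓ * Y / A) := by
              rw [hYdef]; field_simp; ring
          _ ≤ 36 * ζ ^ 2 * N ^ 2 * c₂ := by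
              apply mul_le_mul_of_nonneg_left _ (by positivity)
              rw [div_le_iff₀ hA]
              have h5 : eX * v2 * ℓ * Y ≤ eX * v2 * ℓ * eX :=
                mul_le_mul_of_nonneg_left hYe.le (by positivity)
              have h6 : eX * v2 * ℓ * eX = eX ^ 2 * v2 * ℓ := by ring
              linarith
          _ = (576 * c₂) * (ζ ^ 2 * N ^ 2 / 16) := by ring
          _ ≤ 1 * (ζ ^ 2 * N ^ 2 / 16) := mul_le_mul_of_nonneg_right k2 (by positivity)
          _ = (|ζ| / 4 * N) ^ 2 := by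
              have h7 : (|ζ| / 4 * N) ^ 2 = |ζ| ^ 2 * N ^ 2 / 16 := by ring
              rw [h7, hζζ, one_mul]
      -- far part
      set far := Finset.univ.filter fun k => ¬ |K k - ζ| ≤ 3 * eX with hfar
      have hf1 : ∑ k ∈ far, 1 / ‖Z k‖ ≤ 3 * (ℓ * N) := by
        refine le_trans (Finset.sum_le_sum (g := fun k => 3 * (1 / (|K k - ζ| + eX))) ?_) ?_
        · intro k hk
          have hk' : 3 * eX < |K k - ζ| := not_le.1 (Finset.mem_filter.1 hk).2
          have hp : 0 < |K k - ζ| + eX := by positivity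
          have h7 : (|K k - ζ| + eX) / 3 ≤ ‖Z k‖ := by
            have := hZlo k
            linarith
          have h8 : 3 * (1 / (|K k - ζ| + eX)) = 1 / ((|K k - ζ| + eX) / 3) := by
            field_simp
          rw [h8]
          exact one_div_le_one_div_of_le (by positivity) h7
        · refine le_trans (Finset.sum_le_univ_sum_of_nonneg fun k => by positivity) ?_
          rw [← Finset.mul_sum]
          exact mul_le_mul_of_nonneg_left (hsum ζ) (by norm_num)
      have hf2 : v2 * ∑ k ∈ far, 1 / ‖Z k‖ ≤ |ζ| / 4 * N := by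
        have h5 : v2 * ∑ k ∈ far, 1 / ‖Z k‖ ≤ v2 * (3 * (ℓ * N)) :=
          mul_le_mul_of_nonneg_left hf1 hv0.le
        have h6 : v2 * ℓ ≤ S / 12 := by
          have : c₂ * S ≤ 1 / 12 * S := mul_le_mul_of_nonneg_right k1 hS.le
          linarith
        have h7 : v2 * ℓ * (3 * N) ≤ S / 12 * (3 * N) :=
          mul_le_mul_of_nonneg_right h6 (by positivity)
        have h8 : S / 4 * N ≤ |ζ| / 4 * N := mul_le_mul_of_nonneg_right (by linarith) hN.le
        linarith
      have htot : v2 * (N * ‖gb‖) ≤ |ζ| / 2 * N := by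
        have h5 : ∑ k, 1 / ‖Z k‖ = ∑ k ∈ near, 1 / ‖Z k‖ + ∑ k ∈ far, 1 / ‖Z k‖ :=
          (Finset.sum_filter_add_sum_filter_not _ _ _).symm
        have h6 := mul_le_mul_of_nonneg_left hnorm hv0.le
        rw [h5, mul_add] at h6
        linarith
      have h5 : N * (v2 * ‖gb‖) ≤ N * (|ζ| / 2) := by linarith
      have h6 := le_of_mul_le_mul_left h5 hN
      linarith
    -- contradiction
    have hk : ∀ k, |K k - ζ| ≤ eX → A / (96 * (S ^ 2 * eX ^ 2)) ≤ -(Z k).im / ‖Z k‖ ^ 2 := by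
      intro k hk
      have h5 : |K k| ≤ |ζ| + eX := by
        calc |K k| = |ζ + (K k - ζ)| := by ring_nf
          _ ≤ |ζ| + |K k - ζ| := abs_add_le _ _
          _ ≤ _ := by linarith
      have h6 : eX ≤ S / 12 := by
        have : c₂ * S ≤ 1 / 12 * S := mul_le_mul_of_nonneg_right k1 hS.le
        linarith
      have h7 : |K k| + S ≤ 3 * S := by linarith
      have h8 : A / (9 * S ^ 2) ≤ -(Z k).im := by
        refine le_trans ?_ (b1 k)
        apply div_le_div_of_nonneg_left hA.le (pow_pos (hKS k) 2)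
        calc (|K k| + S) ^ 2 ≤ (3 * S) ^ 2 := pow_le_pow_left₀ (hKS k).le h7 2
          _ = 9 * S ^ 2 := by ring
      have h9 : ‖Z k‖ ≤ 13 / 4 * eX := by have := hZup k; linarith
      have h10 : ‖Z k‖ ^ 2 ≤ 169 / 16 * eX ^ 2 := by
        calc ‖Z k‖ ^ 2 ≤ (13 / 4 * eX) ^ 2 := pow_le_pow_left₀ (Zpos k).le h9 2
          _ = _ := by ring
      calc A / (96 * (S ^ 2 * eX ^ 2)) ≤ A / (1521 / 16 * (S ^ 2 * eX ^ 2)) := by
            apply div_le_div_of_nonneg_left hA.le (by positivity)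
            have : 0 < S ^ 2 * eX ^ 2 := by positivity
            linarith
        _ = (A / (9 * S ^ 2)) / (169 / 16 * eX ^ 2) := by
            field_simp; norm_num
        _ ≤ -(Z k).im / ‖Z k‖ ^ 2 := div_le_div₀ (bpos k).le h8 (pow_pos (Zpos k) 2) h10
    have h5 := hlb eX _ (by positivity) le_rfl (by linarith) hk
    have h6 : v2 * (c₀ * eX * (A / (96 * (S ^ 2 * eX ^ 2)))) ≤ Y :=
      mul_le_mul_of_nonneg_left h5 hv0.le
    have h7 : v2 * (c₀ * eX * (A / (96 * (S ^ 2 * eX ^ 2)))) < eX := lt_of_le_of_lt h6 hYe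
    have h8 : v2 * (c₀ * eX * (A / (96 * (S ^ 2 * eX ^ 2)))) =
        c₀ * (v2 * A) / (96 * S ^ 2 * eX) := by
      field_simp
    rw [h8, div_lt_iff₀ (by positivity)] at h7
    have h9 : 96 * c₂ * (v2 * A) ≤ c₀ * (v2 * A) :=
      mul_le_mul_of_nonneg_right k3 (by positivity)
    have h10 : eX * (96 * S ^ 2 * eX) = 96 * (eX ^ 2 * S ^ 2) := by ring
    rw [h10] at h7
    linarith

end Pool.Agent.Run7.h442.B2.Det
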