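import Pool.Agent.Run7.h442.B2.Gapp
import Pool.Agent.Run7.h442.BA.Fin

/-!
Dimension two: from the gap below the kinetic scale to the operator.
-/

set_option autoImplicit false

namespace Pool.Agent.Run7.h442.B2

open Pool.Agent.Run7.h442.BA
open MeasureTheory Filter Pool.Agent.W792.LL Pool.Agent.W792.WA Pool.Agent.N659.HB
open scoped Topology ENNReal

noncomputable section

/-- The theorem below the kinetic scale in dimension two. -/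
def S_BKA2 : Prop :=
  ∀ (d : ℕ), d = 2 → ∃ Cd : ℝ, 0 < Cd ∧ ∀ (ν : Measure ℝ) [IsProbabilityMeasure ν]
    (C₀ a₁ a₂ κ : ℝ), (∀ᵐ x ∂ν, |x| ≤ C₀) → (∀ a : ℝ, ν {a} < 1) → BI a₁ a₂ → a₁ < a₂ →
    κ < 1 / 24 →
    ∃ lam₀ : ℝ, 0 < lam₀ ∧ lam₀ < 1 ∧ ∀ lam : ℝ, 0 < lam → lam ≤ lam₀ →
      ∃ b : C(ℝ, ℝ), (∀ t, |b t| ≤ lam ^ (2 + κ)) ∧
      (∀ x : Fin d → ℤ,
        ‖UnitAddTorus.mFourierCoeff (fun k : UnitAddTorus (Fin d) => ((b (lap d k) : ℝ) : ℂ)) x‖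
          ≤ Cd * lam ^ (2 + κ) / (1 + ‖x‖) ^ ((d : ℝ) / 3)) ∧
      ∀ᵐ v ∂(Pn ν (Fin d → ℤ)), ACIK (lap d + gK b d) lam v a₁ a₂

/-- The theorem below the kinetic scale, from the gap. -/
theorem bka0 (hG : S_GAPP2) (hC : S_CHK) (hAe : S_AEQK) (hAf : S_AFF) (hCay : S_CAY) (hW : S_WS)
    (hψ : ∃ ψ : C(UnitAddCircle, ℝ), IsSemi ψ ∧ ∀ d : ℕ, 0 < d → ∃ C : ℝ, 0 < C ∧
      ∀ (M : ℕ) (x : Fin d → ℤ),
      ‖UnitAddTorus.mFourierCoeff (fun k : UnitAddTorus (Fin d) =>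
        ((ψ ((M * lap d k / (2 * Real.pi) : ℝ) : UnitAddCircle) : ℝ) : ℂ)) x‖
        ≤ C / (1 + ‖x‖) ^ ((d : ℝ) / 3)) (d : ℕ) (hd : d = 2) : ∃ Cd : ℝ, 0 < Cd ∧
    ∀ (ν : Measure ℝ) [IsProbabilityMeasure ν]
    (C₀ a₁ a₂ κ : ℝ), (∀ᵐ x ∂ν, |x| ≤ C₀) → (∀ a : ℝ, ν {a} < 1) → BI a₁ a₂ → a₁ < a₂ →
    1 / 50 ≤ κ → κ < 1 / 24 →
    ∃ lam₀ : ℝ, 0 < lam₀ ∧ lam₀ < 1 ∧ ∀ lam : ℝ, 0 < lam → lam ≤ lam₀ →
      ∃ b : C(ℝ, ℝ), (∀ t, |b t| ≤ lam ^ (2 + κ)) ∧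
      (∀ x : Fin d → ℤ,
        ‖UnitAddTorus.mFourierCoeff (fun k : UnitAddTorus (Fin d) => ((b (lap d k) : ℝ) : ℂ)) x‖
          ≤ Cd * lam ^ (2 + κ) / (1 + ‖x‖) ^ ((d : ℝ) / 3)) ∧
      ∀ᵐ v ∂(Pn ν (Fin d → ℤ)), ACIK (lap d + gK b d) lam v a₁ a₂ := by
  have hd0 : 0 < d := by omega
  have hd1 : (0 : ℝ) < d := by exact_mod_cast hd0
  obtain ⟨ψ, hψ1, hψ2⟩ := hψ
  obtain ⟨Cd, hCd, hCd1⟩ := hψ2 d hd0
  refine ⟨Cd, hCd, fun ν _ C₀ a₁ a₂ κ hb hat hBI ha12 hκ1 hκ2 => ?_⟩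
  obtain ⟨mg, hmg0, hBIm⟩ := hBI.margin
  have hC0 : 0 ≤ C₀ := by
    obtain ⟨x, hx⟩ := hb.exists
    exact (abs_nonneg x).trans hx
  set mb : ℝ := ∫ x, x ∂ν with hmb
  have hmb1 : |mb| ≤ C₀ := by
    have := norm_integral_le_of_norm_le_const (μ := ν) (f := fun x : ℝ => x) (C := C₀) hb
    simpa using this
  have hm1 : Measurable fun x : ℝ => x - mb := by fun_prop
  have hP1 : IsProbabilityMeasure (ν.map fun x => x - mb) :=
    Measure.isProbabilityMeasure_map hm1.aemeasurable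
  set ν₁ : Measure ℝ := ν.map fun x => x - mb with hν₁
  have hb1 : ∀ᵐ x ∂ν₁, |x| ≤ 2 * C₀ := by
    rw [hν₁]
    refine (ae_map_iff (p := fun x => |x| ≤ 2 * C₀) hm1.aemeasurable
      (measurableSet_le measurable_id.abs measurable_const)).2 ?_
    filter_upwards [hb] with x hx
    have := abs_sub x mb
    linarith
  have hintx : Integrable (fun x : ℝ => x) ν :=
    Integrable.of_bound (C := C₀) (by fun_prop) hb
  have hmean1 : ∫ x, x ∂ν₁ = 0 := by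
    rw [hν₁, integral_map hm1.aemeasurable (by fun_prop), integral_sub hintx (integrable_const _)]
    simp [← hmb]
  have hat1 : ∀ a : ℝ, ν₁ {a} < 1 := by
    intro a
    rw [hν₁, Measure.map_apply hm1 (measurableSet_singleton a)]
    have e : (fun x : ℝ => x - mb) ⁻¹' {a} = {a + mb} := by
      ext x
      simp only [Set.mem_preimage, Set.mem_singleton_iff]
      exact sub_eq_iff_eq_add
    rw [e]
    exact hat _
  set a₁' : ℝ := a₁ - mg with ha₁'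
  set a₂' : ℝ := a₂ + mg with ha₂'
  have ha' : 0 < a₂' - a₁' := by rw [ha₁', ha₂']; linarith
  set γ : ℝ := 4 * d / (a₂' - a₁') with hγdef
  have hγ : 0 < γ := by positivity
  obtain ⟨lam₀, hl0, hl1, hlam⟩ := hG d ν₁ (2 * C₀) a₁' a₂' γ κ hd hb1 hmean1 hat1
    hBIm (by linarith) hγdef hκ1 hκ2
  set t : ℝ := mg / (2 * (C₀ + 1)) with ht
  have ht0 : 0 < t := by positivity
  refine ⟨min lam₀ t, lt_min hl0 ht0, (min_le_left _ _).trans_lt hl1, fun lam hp hle => ?_⟩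
  set l : ℝ := lam ^ (2 + κ) / 2 with hl
  have hlpos : 0 < l := by
    have := Real.rpow_pos_of_pos hp (2 + κ)
    positivity
  have h2l : 2 * l = lam ^ (2 + κ) := by rw [hl]; ring
  -- laws
  have hm2 : Measurable fun x : ℝ => (γ * lam) * x := by fun_prop
  have hP2 : IsProbabilityMeasure (ν₁.map fun x => (γ * lam) * x) :=
    Measure.isProbabilityMeasure_map hm2.aemeasurable
  have hgl : 0 < γ * lam := by positivity
  have hatom : ∀ a : ℝ, (ν₁.map fun x => (γ * lam) * x) {a} < 1 := by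
    intro a
    rw [Measure.map_apply hm2 (measurableSet_singleton a)]
    have e : (fun x : ℝ => (γ * lam) * x) ⁻¹' {a} = {a / (γ * lam)} := by
      ext x
      simp only [Set.mem_preimage, Set.mem_singleton_iff]
      rw [eq_div_iff hgl.ne', mul_comm]
    rw [e]
    exact hat1 _
  have hvr : 0 < vr (ν₁.map fun x => (γ * lam) * x) :=
    Pool.Agent.W792.WA.Ch.vr_pos hCay _ hatom
  obtain ⟨σ, hσ, hgap⟩ := hlam lam hp (hle.trans (min_le_left _ _)) ψ hψ1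
  obtain ⟨b, hb1', hb2⟩ := of_gap hC hAe hAf hψ1 hd0 ν₁ γ lam l a₁' hγ hp hlpos hvr hσ
    (fun ρ' _ h z hz s hs => hgap ρ' h z hz s hs)
  refine ⟨b, fun t => ?_, fun x => ?_, ?_⟩
  · rw [← h2l]
    exact G16.IsSum.bound hψ1.bound hb1' t
  · have h1 := hW d ψ Cd (2 * l) b hd0 hCd.le (by positivity) hCd1 hb1' x
    refine h1.trans (le_of_eq ?_)
    rw [h2l]; ring
  · have h1 := ae_map_law ν hm1 hb2
    have e3 : a₁' + 4 * d / γ = a₂' := by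
      rw [hγdef]; field_simp; ring
    filter_upwards [h1] with v hv
    have h2 := ACIK_shift hAf hv
    rw [e3] at h2
    have h3 : |lam * mb| ≤ mg / 2 := by
      rw [abs_mul, abs_of_pos hp]
      have h4 : lam ≤ t := hle.trans (min_le_right _ _)
      calc lam * |mb| ≤ t * (C₀ + 1) := by
            apply mul_le_mul h4 (by linarith) (abs_nonneg _) ht0.le
        _ = _ := by rw [ht]; field_simp
    rw [abs_le] at h3
    refine ACIK_mono h2 ?_ ?_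
    · rw [ha₁']; linarith [h3.2]
    · rw [ha₂']; linarith [h3.1]

/-- The theorem below the kinetic scale. -/
theorem bka (hG : S_GAPP2) (hC : S_CHK) (hAe : S_AEQK) (hAf : S_AFF) (hCay : S_CAY) (hW : S_WS)
    (hψ : ∃ ψ : C(UnitAddCircle, ℝ), IsSemi ψ ∧ ∀ d : ℕ, 0 < d → ∃ C : ℝ, 0 < C ∧
      ∀ (M : ℕ) (x : Fin d → ℤ),
      ‖UnitAddTorus.mFourierCoeff (fun k : UnitAddTorus (Fin d) =>
        ((ψ ((M * lap d k / (2 * Real.pi) : ℝ) : UnitAddCircle) : ℝ) : ℂ)) x‖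
        ≤ C / (1 + ‖x‖) ^ ((d : ℝ) / 3)) : S_BKA2 := by
  intro d hd
  obtain ⟨Cd, hCd, H⟩ := bka0 hG hC hAe hAf hCay hW hψ d hd
  refine ⟨Cd, hCd, fun ν _ C₀ a₁ a₂ κ hb hat ha1 ha12 hκ => ?_⟩
  obtain ⟨lam₀, h0, h1, H1⟩ := H ν C₀ a₁ a₂ (max κ (1 / 50)) hb hat ha1 ha12
    (le_max_right _ _) (max_lt hκ (by norm_num))
  refine ⟨lam₀, h0, h1, fun lam hl hle => ?_⟩
  obtain ⟨b, hb1, hb2, hb3⟩ := H1 lam hl hle
  have hmono : lam ^ (2 + max κ (1 / 50)) ≤ lam ^ (2 + κ) :=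
    Real.rpow_le_rpow_of_exponent_ge hl (hle.trans h1.le) (by linarith [le_max_left κ (1 / 50)])
  refine ⟨b, fun t => (hb1 t).trans hmono, fun x => (hb2 x).trans ?_, hb3⟩
  gcongr

end

end Pool.Agent.Run7.h442.B2
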