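import Pool.Agent.Run7.h442.B2.Tor1
import Pool.Agent.Run7.h442.B2.Det
import Pool.Agent.Run7.h442.BA.Stm

/-! Dimension two: the torus theorem. -/

set_option autoImplicit false
set_option linter.unusedSectionVars false

open scoped BigOperators Matrix Topology
open MeasureTheory Filter

namespace Pool.Agent.Run7.h442.B2

open Pool.Agent.Run7.h442.BA Pool.Agent.Run7.h442.B2.Det
open Pool.Agent.W788.BK (PP nsq Low hi S_QB S_LOW JJ)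
open Pool.Agent.W788.MFP.Four (T e NN adj NN_pos card_T)
open Pool.Agent.W788.MFP.Form (J_neg J_pos J_ge J_ge' adj_abs)
open Pool.Agent.W788.MF2.Dom (DomBy dom_bdd m1 m1_pos)

/-- Intervals of bulk energies: away from the critical energies `0, 4, 8`. -/
def BI (a₁ a₂ : ℝ) : Prop := (0 < a₁ ∧ a₂ < 4) ∨ (4 < a₁ ∧ a₂ < 8)

theorem BI.pos {a₁ a₂ : ℝ} (h : BI a₁ a₂) : 0 < a₁ := by
  rcases h with h | h
  · exact h.1
  · linarith [h.1]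

theorem BI.lt {a₁ a₂ : ℝ} (h : BI a₁ a₂) : a₂ < 8 := by
  rcases h with h | h
  · linarith [h.2]
  · exact h.2

theorem BI.bulk {a₁ a₂ : ℝ} (h : BI a₁ a₂) : ∃ ka : ℝ, 0 < ka ∧ ka ≤ 1 ∧
    ∀ E : ℝ, a₁ ≤ E → E ≤ a₂ → ka ≤ |4 - E| ∧ |4 - E| ≤ 4 - ka := by
  rcases h with h | h
  · refine ⟨min 1 (min a₁ (4 - a₂)), lt_min one_pos (lt_min h.1 (by linarith [h.2])),
      min_le_left _ _, fun E h1 h2 => ?_⟩
    have h3 := (min_le_right 1 (min a₁ (4 - a₂))).trans (min_le_left _ _)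
    have h4 := (min_le_right 1 (min a₁ (4 - a₂))).trans (min_le_right _ _)
    rw [abs_of_pos (by linarith [h.2])]
    constructor <;> linarith
  · refine ⟨min 1 (min (a₁ - 4) (8 - a₂)), lt_min one_pos (lt_min (by linarith [h.1])
      (by linarith [h.2])), min_le_left _ _, fun E h1 h2 => ?_⟩
    have h3 := (min_le_right 1 (min (a₁ - 4) (8 - a₂))).trans (min_le_left _ _)
    have h4 := (min_le_right 1 (min (a₁ - 4) (8 - a₂))).trans (min_le_right _ _)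
    rw [abs_of_neg (by linarith [h.1])]
    constructor <;> linarith

/-- The torus theorem in dimension two. -/
def S_TOR2 : Prop :=
  ∀ (d : ℕ) (a₁ a₂ γ C₁ s₂ κ : ℝ), d = 2 → BI a₁ a₂ → 1 ≤ γ → 0 < C₁ →
    0 < s₂ → s₂ ≤ 1 → 1 / 50 ≤ κ → κ < 1 / 24 → ∃ c₁ : ℝ, 0 < c₁ ∧ ∃ u : ℝ, 0 < u ∧ u ≤ κ / 100 ∧
    ∀ CE cA B : ℝ, 0 < CE → 0 < cA → ∃ lam₀ : ℝ, 0 < lam₀ ∧ lam₀ < 1 ∧ ∀ lam : ℝ, 0 < lam →
      lam ≤ lam₀ → ∀ (L : ℕ) [NeZero L], Odd L → lam ^ (-20 : ℝ) ≤ L → (L : ℝ) ≤ lam ^ (-B) →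
      ∀ (ν : Measure ℝ) [IsProbabilityMeasure ν], (∀ᵐ x ∂ν, |x| ≤ C₁ * lam) → ∫ x, x ∂ν = 0 →
      ∫ x, x ^ 2 ∂ν = s₂ * (C₁ * lam) ^ 2 →
      ∀ (E y : ℝ) (X : T d L → ℂ), a₁ ≤ E → E ≤ a₂ → 0 ≤ y → y ≤ 1 →
      (∀ k, ‖X k - (((γ * (2 * d - adj k - E) : ℝ) : ℂ) - y * Complex.I)‖
        ≤ CE * lam ^ (2 + 2 * κ)) →
      (∀ k, y ≤ -(X k).im) →
      (∀ k, cA * lam ^ (6 + 2 * κ) / (|γ * (2 * d - adj k - E)| + lam ^ (2 - u)) ^ 2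
        ≤ -(X k).im) →
      ∀ k, (sm ν X k).im ≤ -(c₁ * lam ^ 2) ∧ ‖sm ν X k‖ ≤ lam ^ (2 - u) / 2

/-- the first part, with the dimension as a variable -/
theorem tor1' {d : ℕ} (hd : d = 2) {ka : ℝ} (hka : 0 < ka) (hka1 : ka ≤ 1)
    {γ C₁ s₂ κ u CE cA B : ℝ} (hγ : 1 ≤ γ) (hC₁ : 0 < C₁) (hs₂ : 0 < s₂) (hs₂1 : s₂ ≤ 1)
    (hκ : 1 / 50 ≤ κ) (hκ1 : κ < 1 / 24) (hu : 0 < u) (huκ : u ≤ κ / 100) (hCE : 0 < CE)
    (hcA : 0 < cA) (hB : 0 ≤ B) {K K2 lam : ℝ} {p : ℕ} (hp0 : p ≠ 0)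
    (hp : 2 * (B * d) + 86 ≤ p * (u / 2)) (h0 : 0 < lam) (h1 : lam ≤ 1 / 2)
    (hK : K * lam ^ u ≤ 1) (k1 : 32 * C₁ ≤ K) (k2 : 30 * C₁ ^ 2 ≤ K)
    (k3 : (γ + 1) ^ 2 / cA ≤ K) (k4 : 160000 ≤ K) (k5 : CE ≤ K)
    (k6 : (8 * d * γ + 1) ^ 2 / cA ≤ K) (k7 : 2 * ((8 * d * γ + 3) ^ 2 + 1) ≤ K)
    (hl2 : (8 * (2600000 / ka ^ 3)) * Real.log (1 / lam) ^ 2 * lam ^ u ≤ 1)
    (hl1 : 6800 * Real.log (1 / lam) ^ 2 * lam ^ u ≤ 1)
    (hK2 : K2 * lam ^ (u / 2) ≤ 1)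
    (c1 : 8 * p * C₁ ^ 2 / m1 ^ 2 ≤ K2) (c2 : 2048 * p * C₁ ^ 2 / m1 ^ 2 ≤ K2)
    (L : ℕ) [NeZero L] (hodd : Odd L) (hL : lam ^ (-20 : ℝ) ≤ L) (hLB : (L : ℝ) ≤ lam ^ (-B))
    (ν : Measure ℝ) [IsProbabilityMeasure ν] (hν : ∀ᵐ x ∂ν, |x| ≤ C₁ * lam)
    (hν0 : ∫ x, x ∂ν = 0) (hν2 : ∫ x, x ^ 2 ∂ν = s₂ * (C₁ * lam) ^ 2)
    (E y : ℝ) (X : T d L → ℂ) (hE : 0 ≤ E) (hE4 : E ≤ 4 * d) (hbk1 : ka ≤ |2 * d - E|)
    (hbk2 : |2 * d - E| ≤ 4 - ka) (hy : 0 ≤ y) (hy1 : y ≤ 1)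
    (hX1 : ∀ k, ‖X k - (((γ * (2 * d - adj k - E) : ℝ) : ℂ) - y * Complex.I)‖
        ≤ CE * lam ^ (2 + 2 * κ))
    (hX3 : ∀ k, cA * lam ^ (6 + 2 * κ) / (|γ * (2 * d - adj k - E)| + lam ^ (2 - u)) ^ 2
        ≤ -(X k).im) :
    s₂ * (C₁ * lam) ^ 2 * ‖gb ν X‖ ≤ lam ^ (2 - 2 * κ - 16 * u) ∧ ∀ k, gm ν X k ≠ 0 ∧
      ‖sm ν X k + ((s₂ * (C₁ * lam) ^ 2 : ℝ) : ℂ) * gb ν X‖ ≤ lam ^ (7 / 3 - 6 * κ - 49 * u) := by
  subst hd
  exact tor1 hka hka1 hγ hC₁ hs₂ hs₂1 hκ hκ1 hu huκ hCE hcA hB hp0 hp h0 h1 hK k1 k2 k3 k4 k5 k6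
    k7 hl2 hl1 hK2 c1 c2 L hodd hL hLB ν hν hν0 hν2 E y X hE hE4 hbk1 hbk2 hy hy1 hX1 hX3

/-- the averaged resolvent of the free operator -/
theorem sum_up {d L : ℕ} [NeZero L] (hd : d = 2) {γ : ℝ} (hγ : 1 ≤ γ) (E ζ δ e : ℝ)
    (hδ : 1 / (L : ℝ) ≤ δ) (hδ1 : δ ≤ 1 / 2) (he : δ ≤ e) :
    ∑ k : T d L, 1 / (|γ * (2 * d - adj k - E) - ζ| + e) ≤
      (1700 * Real.log (1 / δ) ^ 2) * NN d L := by
  subst hd
  have hL : (0 : ℝ) < L := by exact_mod_cast Nat.pos_of_ne_zero (NeZero.ne L)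
  have hδ0 : 0 < δ := lt_of_lt_of_le (by positivity) hδ
  have hN := NN_pos (d := 2) (L := L)
  have h1 := Pool.Agent.W788.MF2.Dos2d.green2 (L := L) δ hδ hδ1 (2 * (2 : ℕ) - E - ζ / γ)
  have h2 : ∑ k : T 2 L, 1 / (|γ * (2 * (2 : ℕ) - adj k - E) - ζ| + e) ≤
      ∑ k : T 2 L, (Real.sqrt ((adj k - (2 * (2 : ℕ) - E - ζ / γ)) ^ 2 + δ ^ 2))⁻¹ := by
    refine Finset.sum_le_sum fun k _ => ?_
    rw [one_div]
    have h3 : Real.sqrt ((adj k - (2 * (2 : ℕ) - E - ζ / γ)) ^ 2 + δ ^ 2) ≤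
        |γ * (2 * (2 : ℕ) - adj k - E) - ζ| + e := by
      have h4 := J_le (2 * (2 : ℕ) - E - ζ / γ) δ hδ0.le k
      have h5 : γ * (2 * (2 : ℕ) - adj k - E) - ζ = -(γ * (adj k - (2 * (2 : ℕ) - E - ζ / γ))) := by
        field_simp
        ring
      have h6 : |adj k - (2 * (2 : ℕ) - E - ζ / γ)| ≤ |γ * (2 * (2 : ℕ) - adj k - E) - ζ| := by
        rw [h5, abs_neg, abs_mul, abs_of_nonneg (by linarith : (0 : ℝ) ≤ γ)]
        exact le_mul_of_one_le_left (abs_nonneg _) hγ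
      have h7 : Real.sqrt ((adj k - (2 * (2 : ℕ) - E - ζ / γ)) ^ 2 + δ ^ 2) =
        Pool.Agent.W788.MFP.Form.J (2 * (2 : ℕ) - E - ζ / γ) δ k := rfl
      rw [h7]
      linarith
    exact inv_anti₀ (Real.sqrt_pos.2 (by positivity)) h3
  refine h2.trans ?_
  rw [inv_mul_le_iff₀ hN] at h1
  unfold Pool.Agent.W788.MFP.Form.J at h1
  linarith

/-- the torus theorem -/
theorem tor (hDET : S_DET2) (hCN : S_CNTL) (hCY : S_CYL) : S_TOR2 := by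
  intro d a₁ a₂ γ C₁ s₂ κ hd hBI hγ hC₁ hs₂ hs₂1 hκ hκ1
  have hd2 : (d : ℝ) = 2 := by rw [hd]; norm_num
  obtain ⟨ka, hka, hka1, hbulk⟩ := hBI.bulk
  have ha₁ := hBI.pos
  have ha₂ : a₂ < 4 * d := by
    have := hBI.lt
    linarith
  have hd0 : (0 : ℝ) ≤ d := by positivity
  obtain ⟨cN, CN, hcN, hCN0, hcnt⟩ := hCN d (a₁ / 2) ((a₂ + 4 * d) / 2) (by omega) (by linarith)
    (by linarith)
  have hγ0 : 0 < γ := by linarith
  obtain ⟨c', c₂, hc', hc₂, hdet⟩ := hDET (cN / γ) (by positivity)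
  refine ⟨s₂ * C₁ ^ 2 * c' / 2, by positivity, min (κ / 100) ((1 / 24 - κ) / 10),
    lt_min (by linarith) (by linarith), min_le_left _ _, ?_⟩
  set u := min (κ / 100) ((1 / 24 - κ) / 10) with hudef
  have hu : 0 < u := lt_min (by linarith) (by linarith)
  have huκ : u ≤ κ / 100 := min_le_left _ _
  have hu2 : u ≤ (1 / 24 - κ) / 10 := min_le_right _ _
  clear_value u
  intro CE cA B hCE hcA
  have hda : 0 < 4 * (d : ℝ) - a₂ := by linarith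
  -- the constants
  obtain ⟨p, hp⟩ := exists_nat_ge ((2 * (max B 0 * d) + 86) / (u / 2) + 1)
  have hp0 : p ≠ 0 := by
    rintro rfl
    have h2 : 0 ≤ (2 * (max B 0 * d) + 86) / (u / 2) := by
      have := le_max_right B 0
      positivity
    norm_num at hp
    linarith
  have hp' : 2 * (max B 0 * d) + 86 ≤ p * (u / 2) := by
    have h2 : (2 * (max B 0 * d) + 86) / (u / 2) ≤ p := by linarith
    rwa [div_le_iff₀ (by positivity)] at h2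
  obtain ⟨K, hKd⟩ : ∃ K : ℝ, K = 160000 + 32 * C₁ + 30 * C₁ ^ 2 + (γ + 1) ^ 2 / cA + CE +
    (8 * d * γ + 1) ^ 2 / cA + 2 * ((8 * d * γ + 3) ^ 2 + 1) + CE / c₂ + 1 / c₂ + 4 / CE +
    2 / a₁ + 2 / (4 * d - a₂) + CN * γ / CE + 1 / CE + CE ^ 2 * C₁ ^ 2 / (c₂ * cA) +
    CE ^ 2 / (c₂ * (s₂ * C₁ ^ 2) * cA) + 2 / (s₂ * C₁ ^ 2 * c') := ⟨_, rfl⟩
  obtain ⟨K2, hK2d⟩ : ∃ K2 : ℝ, K2 = 8 * p * C₁ ^ 2 / m1 ^ 2 + 2048 * p * C₁ ^ 2 / m1 ^ 2 +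
    C₁ ^ 2 / c₂ + 4 * C₁ ^ 2 / c' := ⟨_, rfl⟩
  have hm := m1_pos
  have n1 : 0 ≤ 32 * C₁ := by positivity
  have n2 : 0 ≤ 30 * C₁ ^ 2 := by positivity
  have n3 : 0 ≤ (γ + 1) ^ 2 / cA := by positivity
  have n5 : 0 ≤ CE := hCE.le
  have n6 : 0 ≤ (8 * d * γ + 1) ^ 2 / cA := by positivity
  have n7 : 0 ≤ 2 * ((8 * d * γ + 3) ^ 2 + 1) := by positivity
  have n8 : 0 ≤ CE / c₂ := by positivity
  have n9 : 0 ≤ 1 / c₂ := by positivity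
  have n10 : 0 ≤ 4 / CE := by positivity
  have n11 : 0 ≤ 2 / a₁ := by positivity
  have n12 : 0 ≤ 2 / (4 * d - a₂) := by positivity
  have n13 : 0 ≤ CN * γ / CE := by positivity
  have n14 : 0 ≤ 1 / CE := by positivity
  have n15 : 0 ≤ CE ^ 2 * C₁ ^ 2 / (c₂ * cA) := by positivity
  have n16 : 0 ≤ CE ^ 2 / (c₂ * (s₂ * C₁ ^ 2) * cA) := by positivity
  have n17 : 0 ≤ 2 / (s₂ * C₁ ^ 2 * c') := by positivity
  have m1' : 0 ≤ 8 * p * C₁ ^ 2 / m1 ^ 2 := by positivity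
  have m2' : 0 ≤ 2048 * p * C₁ ^ 2 / m1 ^ 2 := by positivity
  have m3' : 0 ≤ C₁ ^ 2 / c₂ := by positivity
  have m4' : 0 ≤ 4 * C₁ ^ 2 / c' := by positivity
  have hev : ∀ᶠ lam in 𝓝[>] (0 : ℝ), (0 < lam ∧ lam ≤ 1 / 2) ∧ K * lam ^ u ≤ 1 ∧
      K2 * lam ^ (u / 2) ≤ 1 ∧ (8 * (2600000 / ka ^ 3)) * Real.log (1 / lam) ^ 2 * lam ^ u ≤ 1 ∧
      6800 * Real.log (1 / lam) ^ 2 * lam ^ u ≤ 1 ∧
      15300 * Real.log (1 / lam) ^ 2 * lam ^ (u / 2) ≤ 1 := by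
    filter_upwards [Pw.ev_one, Pw.ev_mul K u hu, Pw.ev_mul K2 (u / 2) (by positivity),
      Pw.ev_log2 (8 * (2600000 / ka ^ 3)) u hu (by positivity),
      Pw.ev_log2 6800 u hu (by positivity),
      Pw.ev_log2 15300 (u / 2) (by positivity) (by positivity)]
      with lam h1 h2 h3 h4 h5 h6
    exact ⟨h1, h2, h3, h4, h5, h6⟩
  obtain ⟨lam₀, hl0, hl1, hlam⟩ := Pw.ex_lam hev
  refine ⟨lam₀, hl0, hl1, ?_⟩
  intro lam h0 hle L _ hodd hL hLB ν _ hν hν0 hν2 E y X hE1 hE2 hy hy1 hX1 hX2 hX3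
  obtain ⟨⟨_, h1⟩, hK, hK2, hq2, hq1, hq3⟩ := hlam lam h0 hle
  have h1' : lam ≤ 1 := h1.trans (by norm_num)
  have hLB' : (L : ℝ) ≤ lam ^ (-(max B 0)) :=
    hLB.trans (Pw.anti h0 h1' (by have := le_max_left B 0; linarith))
  have hbk := hbulk E hE1 hE2
  have hbk0 : |2 * (d : ℝ) - E| = |4 - E| := by rw [hd2]; norm_num
  obtain ⟨t1, t2⟩ := tor1' hd hka hka1 hγ hC₁ hs₂ hs₂1 hκ hκ1 hu huκ hCE hcA
    (le_max_right B 0) hp0 hp' h0 h1 hK (by linarith) (by linarith) (by linarith) (by linarith)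
    (by linarith) (by linarith) (by linarith) hq2 hq1 hK2 (by linarith) (by linarith) L hodd hL hLB' ν
    hν hν0 hν2 E y X (by linarith) (by linarith) (by rw [hbk0]; exact hbk.1)
    (by rw [hbk0]; exact hbk.2) hy hy1 hX1 hX3
  have hpos := fun x => Pw.pos h0 x
  have hmul := fun x y => Pw.mul h0 x y
  have hP1 : lam ^ (1 : ℝ) = lam := Real.rpow_one lam
  have hab : ∀ {C x y : ℝ}, C ≤ K → y ≤ x - u → C * lam ^ x ≤ lam ^ y :=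
    fun hC hy => Pw.absl h0 h1' hK hC hy
  have hab2 : ∀ {C x y : ℝ}, C ≤ K2 → y ≤ x - u / 2 → C * lam ^ x ≤ lam ^ y :=
    fun hC hy => Pw.absl h0 h1' hK2 hC hy
  have hdiv : ∀ {a b x y : ℝ}, 0 < b → a / b * x ≤ y → a * x ≤ b * y := by
    intro a b x y hb h
    have h2 := mul_le_mul_of_nonneg_left h hb.le
    have h3 : b * (a / b * x) = a * x := by field_simp
    linarith
  have hN := NN_pos (d := d) (L := L)
  have hL0 : (0 : ℝ) < L := (hpos (-20)).trans_le hL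
  have hLi : 1 / (L : ℝ) ≤ lam ^ (20 : ℝ) := by
    rw [div_le_iff₀ hL0]
    calc (1 : ℝ) = lam ^ (20 : ℝ) * lam ^ (-20 : ℝ) := by
          rw [hmul, add_neg_cancel, Real.rpow_zero]
      _ ≤ _ := mul_le_mul_of_nonneg_left hL (hpos 20).le
  -- the conditions of the self-consistent equation
  set v2 := s₂ * (C₁ * lam) ^ 2 with hv2d
  have h2sq : (C₁ * lam) ^ 2 = C₁ ^ 2 * lam ^ (2 : ℝ) := by rw [Real.rpow_two]; ring
  have hv20 : 0 < v2 := by positivity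
  have hv2 : v2 ≤ C₁ ^ 2 * lam ^ (2 : ℝ) := by
    rw [hv2d, h2sq]
    have : 0 ≤ C₁ ^ 2 * lam ^ (2 : ℝ) := by have := hpos 2; positivity
    exact mul_le_of_le_one_left this hs₂1
  have hv21 : v2 ≤ 1 := by
    refine hv2.trans ?_
    have : C₁ ^ 2 * lam ^ (2 : ℝ) ≤ lam ^ (0 : ℝ) := hab (by linarith [sq_nonneg C₁]) (by linarith)
    rwa [Real.rpow_zero] at this
  have heX0 : 0 < CE * lam ^ (2 + 2 * κ) := mul_pos hCE (hpos _)
  have heX1 : CE * lam ^ (2 + 2 * κ) ≤ c₂ := by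
    have h2 : CE / c₂ * lam ^ (2 + 2 * κ) ≤ lam ^ (0 : ℝ) := hab (by linarith) (by linarith)
    have h3 := hdiv hc₂ h2
    rwa [Real.rpow_zero, mul_one] at h3
  have hD4 : 4 * lam ^ (7 / 3 - 6 * κ - 49 * u) ≤ CE * lam ^ (2 + 2 * κ) :=
    hdiv hCE (hab (by linarith) (by linarith))
  have hA0 : 0 < cA * lam ^ (6 + 2 * κ) := mul_pos hcA (hpos _)
  have hℓ1 : 1 ≤ lam ^ (-(u / 2)) := Pw.one_le h0 h1' (by linarith)
  -- the imaginary part of the self-energy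
  have hXc : ∀ k, (X k).im ≤ -(cA * lam ^ (6 + 2 * κ) / (8 * d * γ + 1) ^ 2) := by
    intro k
    have h2 := hX3 k
    have h3 : |γ * (2 * d - adj k - E)| + lam ^ (2 - u) ≤ 8 * d * γ + 1 := by
      have h4 : lam ^ (2 - u) ≤ 1 := Pw.le_one h0 h1' (by linarith)
      have h5 := adj_abs k
      have h6 : |2 * d - adj k - E| ≤ 8 * d := by
        rw [abs_le] at h5 ⊢
        constructor <;> linarith [h5.1, h5.2]
      rw [abs_mul, abs_of_nonneg hγ0.le]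
      have h7 : γ * |2 * d - adj k - E| ≤ γ * (8 * d) := by gcongr
      linarith
    have h4 : 0 < |γ * (2 * d - adj k - E)| + lam ^ (2 - u) := by
      have := hpos (2 - u)
      have := abs_nonneg (γ * (2 * d - adj k - E))
      linarith
    have h5 : cA * lam ^ (6 + 2 * κ) / (8 * d * γ + 1) ^ 2 ≤
        cA * lam ^ (6 + 2 * κ) / (|γ * (2 * d - adj k - E)| + lam ^ (2 - u)) ^ 2 :=
      div_le_div_of_nonneg_left hA0.le (by positivity) (pow_le_pow_left₀ h4.le h3 2)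
    linarith
  have hcX : 0 < cA * lam ^ (6 + 2 * κ) / (8 * d * γ + 1) ^ 2 := by positivity
  have hcyl := hCY d L ν X _ hcX hXc
  have hcard : (Fintype.card (T d L) : ℝ) = NN d L := card_T
  have hcardC : ((Fintype.card (T d L) : ℂ)) = ((NN d L : ℝ) : ℂ) := by
    rw [← hcard]; push_cast; rfl
  have hgbS : (Fintype.card (T d L) : ℂ) * gb ν X = ∑ k, 1 / (X k + sm ν X k) := by
    unfold gb
    rw [hcardC, ← mul_assoc, ← Complex.ofReal_mul, mul_inv_cancel₀ hN.ne', Complex.ofReal_one,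
      one_mul]
    refine Finset.sum_congr rfl fun k _ => ?_
    unfold sm
    rw [add_sub_cancel, one_div_one_div]
  have hζ : lam ^ (2 - 2 * κ - 16 * u) ≤ c₂ := by
    have h2 : 1 / c₂ * lam ^ (2 - 2 * κ - 16 * u) ≤ lam ^ (0 : ℝ) :=
      hab (by linarith) (by linarith)
    have h3 := hdiv hc₂ h2
    rwa [Real.rpow_zero, mul_one, one_mul] at h3
  have hlow : ∀ ζ t : ℝ, |ζ| ≤ lam ^ (2 - 2 * κ - 16 * u) → CE * lam ^ (2 + 2 * κ) ≤ t → t ≤ 1 →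
      cN / γ * t * Fintype.card (T d L) ≤
        ((Finset.univ.filter fun k : T d L => |γ * (2 * d - adj k - E) - ζ| ≤ t).card : ℝ) := by
    intro ζ t hz ht ht1
    have b1 : lam ^ (2 - 2 * κ - 16 * u) ≤ a₁ / 2 := by
      have h2 : 2 / a₁ * lam ^ (2 - 2 * κ - 16 * u) ≤ lam ^ (0 : ℝ) :=
        hab (by linarith) (by linarith)
      have h3 := hdiv ha₁ h2
      rw [Real.rpow_zero, mul_one] at h3
      linarith
    have b2 : lam ^ (2 - 2 * κ - 16 * u) ≤ (4 * d - a₂) / 2 := by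
      have h2 : 2 / (4 * d - a₂) * lam ^ (2 - 2 * κ - 16 * u) ≤ lam ^ (0 : ℝ) :=
        hab (by linarith) (by linarith)
      have h3 := hdiv hda h2
      rw [Real.rpow_zero, mul_one] at h3
      linarith
    have b3 : |ζ / γ| ≤ |ζ| := by
      rw [abs_div, abs_of_nonneg hγ0.le]
      exact div_le_self (abs_nonneg _) hγ
    have b4 := abs_le.1 (b3.trans hz)
    have b5 : CN / L ≤ t / γ := by
      rw [le_div_iff₀ hγ0]
      refine le_trans ?_ ht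
      have h2 : CN * γ / CE * lam ^ (20 : ℝ) ≤ lam ^ (2 + 2 * κ) :=
        hab (by linarith) (by linarith)
      have h3 := hdiv hCE h2
      calc CN / L * γ = CN * γ * (1 / L) := by ring
        _ ≤ CN * γ * lam ^ (20 : ℝ) := by gcongr
        _ ≤ _ := h3
    have b6 : t / γ ≤ 1 := by rw [div_le_one hγ0]; linarith
    have h2 := hcnt L (E + ζ / γ) (t / γ) (by linarith) (by linarith) b5 b6
    have h3 : (Finset.univ.filter fun k : T d L => |2 * d - adj k - (E + ζ / γ)| ≤ t / γ) =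
        (Finset.univ.filter fun k : T d L => |γ * (2 * d - adj k - E) - ζ| ≤ t) := by
      refine Finset.filter_congr fun k _ => ?_
      have h4 : γ * (2 * d - adj k - E) - ζ = γ * (2 * d - adj k - (E + ζ / γ)) := by
        field_simp
        ring
      rw [h4, abs_mul, abs_of_nonneg hγ0.le, le_div_iff₀ hγ0, mul_comm]
    rw [h3] at h2
    rw [hcard]
    calc cN / γ * t * NN d L = cN * (t / γ) * NN d L := by ring
      _ ≤ _ := h2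
  have h3X : lam ^ (3 : ℝ) ≤ CE * lam ^ (2 + 2 * κ) := by
    have h2 : 1 / CE * lam ^ (3 : ℝ) ≤ lam ^ (2 + 2 * κ) := hab (by linarith) (by linarith)
    have h3 := hdiv hCE h2
    linarith
  have hLi3 : 1 / (L : ℝ) ≤ lam ^ (3 : ℝ) := hLi.trans (Pw.anti h0 h1' (by norm_num))
  have hsum : ∀ ζ : ℝ, ∑ k : T d L, 1 / (|γ * (2 * d - adj k - E) - ζ| +
      CE * lam ^ (2 + 2 * κ)) ≤ lam ^ (-(u / 2)) * Fintype.card (T d L) := by
    intro ζ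
    have hδ1 : lam ^ (3 : ℝ) ≤ 1 / 2 := by
      have : lam ^ (3 : ℝ) ≤ lam ^ (1 : ℝ) := Pw.anti h0 h1' (by norm_num)
      rw [hP1] at this
      linarith
    refine (sum_up hd hγ E ζ (lam ^ (3 : ℝ)) _ hLi3 hδ1 h3X).trans ?_
    rw [hcard]
    refine mul_le_mul_of_nonneg_right ?_ hN.le
    have hlog : Real.log (1 / lam ^ (3 : ℝ)) = 3 * Real.log (1 / lam) := by
      rw [one_div, one_div, Real.log_inv, Real.log_inv, Real.log_rpow h0]; ring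
    have h5 : lam ^ (u / 2) * lam ^ (-(u / 2)) = 1 := by
      rw [hmul, add_neg_cancel, Real.rpow_zero]
    rw [hlog]
    calc 1700 * (3 * Real.log (1 / lam)) ^ 2 =
          (15300 * Real.log (1 / lam) ^ 2 * lam ^ (u / 2)) *
            lam ^ (-(u / 2)) := by rw [mul_assoc _ (lam ^ (u / 2)), h5]; ring
      _ ≤ 1 * lam ^ (-(u / 2)) := mul_le_mul_of_nonneg_right hq3 (hpos _).le
      _ = _ := one_mul _
  have hv2ℓ : v2 * lam ^ (-(u / 2)) ≤ C₁ ^ 2 * lam ^ (2 - u / 2) := by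
    calc v2 * lam ^ (-(u / 2)) ≤ C₁ ^ 2 * lam ^ (2 : ℝ) * lam ^ (-(u / 2)) :=
          mul_le_mul_of_nonneg_right hv2 (hpos _).le
      _ = _ := by rw [mul_assoc, hmul]; rfl
  have e1 : v2 * lam ^ (-(u / 2)) ≤ c₂ * lam ^ (2 - u) := by
    refine hv2ℓ.trans (hdiv hc₂ (hab2 (by linarith) (by linarith)))
  have e2 : (CE * lam ^ (2 + 2 * κ)) ^ 2 * v2 * lam ^ (-(u / 2)) ≤
      c₂ * (cA * lam ^ (6 + 2 * κ)) := by
    have h2 : CE ^ 2 * C₁ ^ 2 / (c₂ * cA) * lam ^ (6 + 4 * κ - u / 2) ≤ lam ^ (6 + 2 * κ) :=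
      hab (by linarith) (by linarith)
    have h3 := hdiv (by positivity) h2
    calc (CE * lam ^ (2 + 2 * κ)) ^ 2 * v2 * lam ^ (-(u / 2)) ≤
          (CE * lam ^ (2 + 2 * κ)) ^ 2 * (C₁ ^ 2 * lam ^ (2 : ℝ)) * lam ^ (-(u / 2)) :=
          mul_le_mul_of_nonneg_right (mul_le_mul_of_nonneg_left hv2 (sq_nonneg _)) (hpos _).le
      _ = CE ^ 2 * C₁ ^ 2 * lam ^ (6 + 4 * κ - u / 2) := by
          have h4 : lam ^ (6 + 4 * κ - u / 2) =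
              (lam ^ (2 + 2 * κ)) ^ 2 * lam ^ (2 : ℝ) * lam ^ (-(u / 2)) := by
            rw [Pw.pow h0, hmul, hmul]; congr 1; push_cast; ring
          rw [h4]; ring
      _ ≤ _ := h3
      _ = _ := by ring
  have e3 : CE * lam ^ (2 + 2 * κ) ≤ c₂ * lam ^ (2 - u) :=
    hdiv hc₂ (hab (by linarith) (by linarith))
  have e4 : (CE * lam ^ (2 + 2 * κ)) ^ 2 * (lam ^ (2 - u)) ^ 2 ≤
      c₂ * (v2 * (cA * lam ^ (6 + 2 * κ))) := by
    have h2 : CE ^ 2 / (c₂ * (s₂ * C₁ ^ 2) * cA) * lam ^ (8 + 4 * κ - 2 * u) ≤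
        lam ^ (8 + 2 * κ) := hab (by linarith) (by linarith)
    have h3 := hdiv (by positivity) h2
    calc (CE * lam ^ (2 + 2 * κ)) ^ 2 * (lam ^ (2 - u)) ^ 2 =
          CE ^ 2 * lam ^ (8 + 4 * κ - 2 * u) := by
          have h4 : lam ^ (8 + 4 * κ - 2 * u) = (lam ^ (2 + 2 * κ)) ^ 2 * (lam ^ (2 - u)) ^ 2 := by
            rw [Pw.pow h0, Pw.pow h0, hmul]; congr 1; push_cast; ring
          rw [h4]; ring
      _ ≤ _ := h3
      _ = _ := by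
          have h4 : lam ^ (8 + 2 * κ) = lam ^ (2 : ℝ) * lam ^ (6 + 2 * κ) := by
            rw [hmul]; congr 1; ring
          rw [h4, hv2d, h2sq]; ring
  obtain ⟨r1, r2⟩ := hdet (T d L) (fun k => γ * (2 * d - adj k - E)) X (sm ν X) y v2
    (CE * lam ^ (2 + 2 * κ)) (lam ^ (7 / 3 - 6 * κ - 49 * u)) (cA * lam ^ (6 + 2 * κ))
    (lam ^ (2 - u)) (lam ^ (2 - 2 * κ - 16 * u)) (lam ^ (-(u / 2))) (gb ν X) hy hy1 hv20 hv21
    heX0 heX1 (hpos _).le hD4 hA0 (hpos _) hℓ1 hX1 hX2 hX3 (fun k => (hcyl k).2.1) hgbS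
    (fun k => (t2 k).2) t1 hζ hlow hsum e1 e2 e3 e4
  intro k
  have hk := (t2 k).2
  have hsplit : sm ν X k = (sm ν X k + (v2 : ℂ) * gb ν X) - (v2 : ℂ) * gb ν X := by ring
  constructor
  · have h2 : (sm ν X k).im = (sm ν X k + (v2 : ℂ) * gb ν X).im - v2 * (gb ν X).im := by
      rw [Complex.add_im, Complex.im_ofReal_mul]
      ring
    have h3 := (Complex.abs_im_le_norm _).trans hk
    have h4 := (abs_le.1 h3).2
    have h5 : lam ^ (7 / 3 - 6 * κ - 49 * u) ≤ s₂ * C₁ ^ 2 * c' / 2 * lam ^ (2 : ℝ) := by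
      have h6 : 2 / (s₂ * C₁ ^ 2 * c') * lam ^ (7 / 3 - 6 * κ - 49 * u) ≤ lam ^ (2 : ℝ) :=
        hab (by linarith) (by linarith)
      have h7 := hdiv (by positivity) h6
      linarith
    have h6 : v2 * c' ≤ v2 * (gb ν X).im := mul_le_mul_of_nonneg_left r1 hv20.le
    have h7 : v2 * c' = s₂ * C₁ ^ 2 * c' * lam ^ (2 : ℝ) := by rw [hv2d, h2sq]; ring
    have h8 : lam ^ (2 : ℝ) = lam ^ 2 := Real.rpow_two lam
    rw [h8] at h5 h7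
    obtain ⟨Z, hZ⟩ : ∃ Z : ℝ, Z = s₂ * C₁ ^ 2 * c' * lam ^ 2 := ⟨_, rfl⟩
    have h9 : s₂ * C₁ ^ 2 * c' / 2 * lam ^ 2 = Z / 2 := by rw [hZ]; ring
    rw [h9] at h5 ⊢
    rw [← hZ] at h7
    linarith
  · rw [hsplit]
    refine (norm_sub_le _ _).trans ?_
    rw [norm_mul, Complex.norm_real, Real.norm_eq_abs, abs_of_nonneg hv20.le]
    have h3 : v2 * ‖gb ν X‖ ≤ lam ^ (2 - u) / 4 := by
      calc v2 * ‖gb ν X‖ ≤ v2 * (lam ^ (-(u / 2)) / c') := mul_le_mul_of_nonneg_left r2 hv20.le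
        _ = v2 * lam ^ (-(u / 2)) / c' := by ring
        _ ≤ C₁ ^ 2 * lam ^ (2 - u / 2) / c' := by gcongr
        _ = 4 * C₁ ^ 2 / c' * lam ^ (2 - u / 2) / 4 := by ring
        _ ≤ lam ^ (2 - u) / 4 := by
          have : 4 * C₁ ^ 2 / c' * lam ^ (2 - u / 2) ≤ lam ^ (2 - u) :=
            hab2 (by linarith) (by linarith)
          linarith
    have h4 : 4 * lam ^ (7 / 3 - 6 * κ - 49 * u) ≤ lam ^ (2 - u) :=
      hab (by linarith) (by linarith)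
    linarith

end Pool.Agent.Run7.h442.B2
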