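import Pool.Agent.Run7.h442.BA.Gapp
import Pool.Agent.Run7.h442.B2.Tor2

/-! Dimension two: the gap. -/

set_option autoImplicit false

namespace Pool.Agent.Run7.h442.B2

open Pool.Agent.Run7.h442.BA
open MeasureTheory Filter Pool.Agent.W792.LL Pool.Agent.W792.WA Pool.Agent.N659.HB
open Pool.Agent.W788.MFP.Four (T e NN adj)
open Pool.Agent.W788.BK (PP nsq)
open Pool.Agent.N163.HB.GAPA
open scoped Topology Matrix

noncomputable section

theorem BI.margin {a₁ a₂ : ℝ} (h : BI a₁ a₂) : ∃ m : ℝ, 0 < m ∧ BI (a₁ - m) (a₂ + m) := by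
  rcases h with h | h
  · refine ⟨min (a₁ / 2) ((4 - a₂) / 2), lt_min (by linarith [h.1]) (by linarith [h.2]), Or.inl ?_⟩
    have h1 := min_le_left (a₁ / 2) ((4 - a₂) / 2)
    have h2 := min_le_right (a₁ / 2) ((4 - a₂) / 2)
    constructor <;> linarith [h.1, h.2]
  · refine ⟨min ((a₁ - 4) / 2) ((8 - a₂) / 2), lt_min (by linarith [h.1]) (by linarith [h.2]),
      Or.inr ?_⟩
    have h1 := min_le_left ((a₁ - 4) / 2) ((8 - a₂) / 2)
    have h2 := min_le_right ((a₁ - 4) / 2) ((8 - a₂) / 2)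
    constructor <;> linarith [h.1, h.2]

/-- The gap for a first level below the kinetic scale, dimension two. -/
def S_GAPP2 : Prop :=
  ∀ (d : ℕ) (ν : Measure ℝ) [IsProbabilityMeasure ν] (C₀ a₁ a₂ γ κ : ℝ), d = 2 →
    (∀ᵐ x ∂ν, |x| ≤ C₀) → ∫ x, x ∂ν = 0 → (∀ a : ℝ, ν {a} < 1) → BI a₁ a₂ → a₁ < a₂ →
    γ = 4 * d / (a₂ - a₁) → 1 / 50 ≤ κ → κ < 1 / 24 →
    ∃ lam₀ : ℝ, 0 < lam₀ ∧ lam₀ < 1 ∧ ∀ lam : ℝ, 0 < lam → lam ≤ lam₀ →
    ∀ (ψ : C(UnitAddCircle, ℝ)), IsSemi ψ →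
    ∀ [IsProbabilityMeasure (ν.map fun x => (γ * lam) * x)],
    ∃ σ : ℝ, 0 < σ ∧ ∀ (ρ' : Measure ℝ) [IsProbabilityMeasure ρ'],
      ρ' (Set.Icc (-((γ * (lam ^ (2 + κ) / 2)) / 8)) ((γ * (lam ^ (2 + κ) / 2)) / 8))ᶜ = 0 →
      ∀ z ∈ Zs d, ∀ s, IsFix (ν.map fun x => (γ * lam) * x)
        ((lev ψ (γ * (lam ^ (2 + κ) / 2))).conv ρ')
        (wz (γ • (lap d - ContinuousMap.const _ a₁)) z) s → ‖s‖ ≤ 1 - σ

/-- The gap for a first level below the kinetic scale. -/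
theorem gapp (hTOR : S_TOR2) (hLIP : S_LIPZ) (hXB : S_XB) (hTRA : S_TRA) (hCYL : S_CYL)
    (hZR : S_ZR) (hUX : S_UX) (hCX : S_CX) (hPSI : S_PSI) (hFIX : S_FIX) (hCAY : S_CAY) :
    S_GAPP2 := by
  intro d ν _ C₀ a₁ a₂ γ κ hd hb hm hat hBI ha12 hγdef hκ1 hκ2
  have hd2 : (d : ℝ) = 2 := by rw [hd]; norm_num
  have ha1 := hBI.pos
  have ha2 : a₂ < 4 * d := by
    have := hBI.lt
    linarith
  obtain ⟨mg, hmg0, hBIm⟩ := hBI.margin
  have hd0 : 0 < d := by omega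
  have hd1 : (0 : ℝ) < d := by exact_mod_cast hd0
  have hC0 : 0 ≤ C₀ := by
    obtain ⟨x, hx⟩ := hb.exists
    exact (abs_nonneg x).trans hx
  have ha' : 0 < a₂ - a₁ := by linarith
  have hγ1 : 1 ≤ γ := by rw [hγdef, le_div_iff₀ ha']; linarith
  have hγ : 0 < γ := by linarith
  have hC01 : 0 < C₀ + 1 := by linarith
  set C₁ : ℝ := γ * (C₀ + 1) with hC₁
  have hC1 : 0 < C₁ := by positivity
  set s₂ : ℝ := ∫ x, (x / (C₀ + 1)) ^ 2 ∂ν with hs₂
  have hint : Integrable (fun x : ℝ => (x / (C₀ + 1)) ^ 2) ν := by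
    refine Integrable.of_bound (C := 1) (by fun_prop) ?_
    filter_upwards [hb] with x hx
    rw [Real.norm_eq_abs, abs_pow, abs_div, abs_of_pos hC01]
    exact pow_le_one₀ (by positivity) ((div_le_one hC01).2 (by linarith))
  have hs1 : s₂ ≤ 1 := by
    have h := integral_mono_ae hint (integrable_const (1 : ℝ)) (by
      filter_upwards [hb] with x hx
      rw [← sq_abs, abs_div, abs_of_pos hC01]
      exact pow_le_one₀ (by positivity) ((div_le_one hC01).2 (by linarith)))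
    simpa using h
  have hs0 : 0 < s₂ := by
    have h0 : 0 ≤ s₂ := integral_nonneg fun x => sq_nonneg _
    rcases h0.lt_or_eq with h | h
    · exact h
    · exfalso
      have h1 := (integral_eq_zero_iff_of_nonneg (μ := ν) (f := fun x : ℝ => (x / (C₀ + 1)) ^ 2)
        (fun x => sq_nonneg _) hint).1 h.symm
      have h2 : ∀ᵐ x ∂ν, x = 0 := by
        filter_upwards [h1] with x hx
        simp only [Pi.zero_apply] at hx
        have := pow_eq_zero_iff (two_ne_zero) |>.1 hx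
        rw [div_eq_zero_iff] at this
        rcases this with h3 | h3
        · exact h3
        · linarith
      have h3 : ν {0} = 1 := by
        rw [← prob_compl_eq_zero_iff (measurableSet_singleton 0)]
        exact ae_iff.1 h2
      have := hat 0
      rw [h3] at this
      exact lt_irrefl _ this
  obtain ⟨c₁, hc1, u, hu, hu2, hT⟩ := hTOR d (a₁ - mg) (a₂ + mg) γ C₁ s₂ κ hd hBIm
    hγ1 hC1 hs0 hs1 hκ1 hκ2
  obtain ⟨cL, hcL0, -, hcL⟩ := hLIP
  obtain ⟨C, p, hC, htra⟩ := hTRA d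
  obtain ⟨D, hDd⟩ : ∃ D : ℝ, D = 8 * d * γ + 3 := ⟨_, rfl⟩
  obtain ⟨CK, hCKd⟩ : ∃ CK : ℝ, CK = 4 * Real.pi * γ := ⟨_, rfl⟩
  obtain ⟨CE, hCEd⟩ : ∃ CE : ℝ, CE = 25 * γ ^ 2 / c₁ + 1 := ⟨_, rfl⟩
  obtain ⟨cA, hcAd⟩ : ∃ cA : ℝ, cA = c₁ * γ ^ 2 / 1152 := ⟨_, rfl⟩
  have hD1 : 1 ≤ D := by
    have : 0 ≤ 8 * d * γ := by positivity
    rw [hDd]; linarith
  have hCK1 : 1 ≤ CK := by
    rw [hCKd]
    have := Real.pi_gt_three
    calc (1 : ℝ) ≤ 4 * 3 * 1 := by norm_num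
      _ ≤ 4 * Real.pi * γ := by gcongr
  have hCE : 0 < CE := by rw [hCEd]; positivity
  have hcA : 0 < cA := by rw [hcAd]; positivity
  obtain ⟨l0, hl0, hl1, hT2⟩ := hT CE cA (134 * p + 22) hCE hcA
  -- the conditions
  have hev : ∀ᶠ lam in 𝓝[>] (0 : ℝ), (0 < lam ∧ lam ≤ 1 / 2) ∧ lam ≤ l0 ∧
      20 * lam ^ (1 : ℝ) ≤ 1 ∧ (2 / c₁) * lam ^ (1 : ℝ) ≤ 1 ∧ (1 / cL) * lam ^ (1 : ℝ) ≤ 1 ∧
      D ^ 2 * lam ^ (1 : ℝ) ≤ 1 ∧ (256 * D ^ 4 * CK) * lam ^ (1 : ℝ) ≤ 1 ∧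
      (8 * D) * lam ^ (1 : ℝ) ≤ 1 ∧ (8 * D ^ 2 * (D + 1) ^ 2) * lam ^ (1 : ℝ) ≤ 1 ∧
      (100 * γ / c₁) * lam ^ κ ≤ 1 ∧ (c₁ / 2) * lam ^ u ≤ 1 ∧ (13 * d * γ) * lam ^ (1 : ℝ) ≤ 1 ∧
      cA * lam ^ κ ≤ 1 ∧ (γ / mg) * lam ^ (1 : ℝ) ≤ 1 ∧
      C * lam ^ (1 : ℝ) ≤ 1 := by
    have h2 : ∀ᶠ lam in 𝓝[>] (0 : ℝ), lam ≤ l0 := by
      have h : Set.Ioc (0 : ℝ) l0 ∈ 𝓝[>] (0 : ℝ) := Ioc_mem_nhdsGT hl0
      filter_upwards [h] with lam hl
      exact hl.2
    have o : (0 : ℝ) < 1 := one_pos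
    have k0 : 0 < κ := by linarith
    filter_upwards [Pw.ev_one, h2, Pw.ev_mul 20 1 o, Pw.ev_mul (2 / c₁) 1 o,
      Pw.ev_mul (1 / cL) 1 o, Pw.ev_mul (D ^ 2) 1 o, Pw.ev_mul (256 * D ^ 4 * CK) 1 o,
      Pw.ev_mul (8 * D) 1 o, Pw.ev_mul (8 * D ^ 2 * (D + 1) ^ 2) 1 o,
      Pw.ev_mul (100 * γ / c₁) κ k0, Pw.ev_mul (c₁ / 2) u hu, Pw.ev_mul (13 * d * γ) 1 o,
      Pw.ev_mul cA κ k0, Pw.ev_mul (γ / mg) 1 o, Pw.ev_mul C 1 o]
      with lam g1 g2 g3 g4 g5 g6 g7 g8 g9 g10 g11 g12 g13 g14 g15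
    exact ⟨g1, g2, g3, g4, g5, g6, g7, g8, g9, g10, g11, g12, g13, g14, g15⟩
  obtain ⟨lam₀, hlam0, hlam1, hlam⟩ := Pw.ex_lam hev
  refine ⟨lam₀, hlam0, hlam1, fun lam h0 hle ψ hψ _ => ?_⟩
  obtain ⟨⟨-, h12⟩, g2, g3, g4, g5, g6, g7, g8, g9, g10, g11, g12, g13, g14, g15⟩ := hlam lam h0 hle
  rw [Real.rpow_one] at g3 g4 g5 g6 g7 g8 g9 g12 g14 g15
  have h1 : lam ≤ 1 := by linarith
  have hκ0 : 0 < κ := by linarith
  -- the numbers
  obtain ⟨r, hr⟩ : ∃ r : ℝ, r = γ * (lam ^ (2 + κ) / 2) := ⟨_, rfl⟩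
  obtain ⟨η, hη⟩ : ∃ η : ℝ, η = c₁ * lam ^ 2 / 2 := ⟨_, rfl⟩
  obtain ⟨R, hR⟩ : ∃ R : ℝ, R = lam ^ (2 - u) := ⟨_, rfl⟩
  rw [← hr]
  have p2κ := Pw.pos h0 (2 + κ)
  have hr0 : 0 < r := by rw [hr]; positivity
  have hη0 : 0 < η := by rw [hη]; positivity
  have hR0 : 0 < R := by rw [hR]; exact Pw.pos h0 _
  have e2 : lam ^ 2 = lam ^ (2 : ℝ) := by
    rw [← Real.rpow_natCast]; norm_num
  have h100 : 100 * r ≤ η := by
    rw [hr, hη, e2]
    have h3 : lam ^ (2 + κ) = lam ^ κ * lam ^ (2 : ℝ) := by rw [Pw.mul h0]; congr 1; ring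
    have p2 := Pw.pos h0 2
    have h4 : 100 * γ * lam ^ κ ≤ c₁ := by
      have := mul_le_mul_of_nonneg_left g10 hc1.le
      calc 100 * γ * lam ^ κ = c₁ * (100 * γ / c₁ * lam ^ κ) := by field_simp
        _ ≤ c₁ * 1 := this
        _ = c₁ := mul_one _
    rw [h3]
    calc 100 * (γ * (lam ^ κ * lam ^ (2 : ℝ) / 2)) = (100 * γ * lam ^ κ) * lam ^ (2 : ℝ) / 2 := by
          ring
      _ ≤ c₁ * lam ^ (2 : ℝ) / 2 := by gcongr
  have hηR : η ≤ R := by
    rw [hη, hR, e2]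
    have h3 : lam ^ (2 : ℝ) = lam ^ u * lam ^ (2 - u) := by rw [Pw.mul h0]; congr 1; ring
    have p2 := Pw.pos h0 (2 - u)
    calc c₁ * lam ^ (2 : ℝ) / 2 = (c₁ / 2 * lam ^ u) * lam ^ (2 - u) := by rw [h3]; ring
      _ ≤ 1 * lam ^ (2 - u) := by gcongr
      _ = _ := one_mul _
  have hu1 : u ≤ 1 := by linarith
  have hRl : R ≤ lam := by
    rw [hR]
    calc lam ^ (2 - u) ≤ lam ^ (1 : ℝ) := Pw.anti h0 h1 (by linarith)
      _ = lam := Real.rpow_one _
  have hR4 : R ≤ 1 / 4 := by linarith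
  have hη3 : lam ^ 3 ≤ η := by
    rw [hη, le_div_iff₀ (by norm_num)]
    have h3 : 2 * lam ≤ c₁ := by
      have := mul_le_mul_of_nonneg_left g4 hc1.le
      calc 2 * lam = c₁ * (2 / c₁ * lam) := by field_simp
        _ ≤ c₁ * 1 := this
        _ = c₁ := mul_one _
    calc lam ^ 3 * 2 = (2 * lam) * lam ^ 2 := by ring
      _ ≤ c₁ * lam ^ 2 := by gcongr
  have hr4 : lam ^ 4 ≤ r := by
    have h3 : lam ^ 3 ≤ lam ^ (2 + κ) := by
      have : lam ^ 3 = lam ^ (3 : ℝ) := by rw [← Real.rpow_natCast]; norm_num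
      rw [this]
      exact Pw.anti h0 h1 (by linarith)
    rw [hr]
    calc lam ^ 4 = 1 * (lam ^ 3 * lam) := by ring
      _ ≤ γ * (lam ^ (2 + κ) * (1 / 2)) := by gcongr
      _ = _ := by ring
  have hcLl : lam ≤ cL := by
    have := mul_le_mul_of_nonneg_left g5 hcL0.le
    calc lam = cL * (1 / cL * lam) := by field_simp
      _ ≤ cL * 1 := this
      _ = cL := mul_one _
  obtain ⟨N1, N2, N3, N4⟩ := nums h0 g3 hη3 hr4 hcLl hD1 g6 g7 hCK1 g8 g9
  -- the size of the torus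
  obtain ⟨L, hLd⟩ : ∃ L : ℕ, L = 2 * ⌈lam ^ (-(134 * p + 21 : ℝ))⌉₊ + 1 := ⟨_, rfl⟩
  have hodd : Odd L := ⟨_, hLd⟩
  have hL1 : lam ^ (-(134 * p + 21 : ℝ)) ≤ L := by
    rw [hLd]
    push_cast
    have h3 := Nat.le_ceil (lam ^ (-(134 * p + 21 : ℝ)))
    have h4 := (Pw.pos h0 (-(134 * p + 21 : ℝ))).le
    linarith
  have hp0 : (0 : ℝ) ≤ p := Nat.cast_nonneg p
  have hL1' : lam ^ (-21 : ℝ) ≤ L := (Pw.anti h0 h1 (by linarith)).trans hL1
  have hLpos : (0 : ℝ) < L := (Pw.pos h0 _).trans_le hL1'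
  have hLne : NeZero L := ⟨fun h => by rw [h] at hLpos; simp at hLpos⟩
  have hL2 : (L : ℝ) ≤ lam ^ (-(134 * p + 22 : ℝ)) := by
    have h3 : (L : ℝ) < 2 * (lam ^ (-(134 * p + 21 : ℝ)) + 1) + 1 := by
      rw [hLd]
      push_cast
      have := Nat.ceil_lt_add_one (Pw.pos h0 (-(134 * p + 21 : ℝ))).le
      linarith
    have h4 : 1 ≤ lam ^ (-(134 * p + 21 : ℝ)) := Pw.one_le h0 h1 (by linarith)
    have h5 : 5 * lam ^ (-(134 * p + 21 : ℝ)) ≤ lam ^ (-(134 * p + 22 : ℝ)) := by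
      have h6 : lam ^ (-(134 * p + 21 : ℝ)) = lam ^ (-(134 * p + 22 : ℝ)) * lam := by
        conv_rhs => rw [← Real.rpow_one lam, ← Real.rpow_mul h0.le, one_mul, Pw.mul h0]
        congr 1; ring
      rw [h6]
      have := Pw.pos h0 (-(134 * p + 22 : ℝ))
      calc 5 * (lam ^ (-(134 * p + 22 : ℝ)) * lam) = lam ^ (-(134 * p + 22 : ℝ)) * (5 * lam) := by
            ring
        _ ≤ lam ^ (-(134 * p + 22 : ℝ)) * 1 := by gcongr; linarith
        _ = _ := mul_one _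
    linarith
  have hL20 : lam ^ (-20 : ℝ) ≤ L := (Pw.anti h0 h1 (by norm_num)).trans hL1'
  have hLd' : 13 * d * γ / L ≤ lam ^ (20 : ℝ) := by
    rw [div_le_iff₀ hLpos]
    have p20 := Pw.pos h0 20
    calc 13 * d * γ ≤ lam ^ (-1 : ℝ) := by
          rw [Real.rpow_neg_one, le_inv_comm₀ (by positivity) h0]
          rw [inv_eq_one_div, le_div_iff₀ (by positivity)]
          linarith
      _ = lam ^ (20 : ℝ) * lam ^ (-21 : ℝ) := by rw [Pw.mul h0]; norm_num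
      _ ≤ lam ^ (20 : ℝ) * L := by gcongr
  -- the law
  have hgl : 0 < γ * lam := by positivity
  have hm2 : Measurable fun x : ℝ => (γ * lam) * x := by fun_prop
  have hbd : ∀ᵐ x ∂(ν.map fun x => (γ * lam) * x), |x| ≤ C₁ * lam := by
    refine (ae_map_iff (p := fun x => |x| ≤ C₁ * lam) hm2.aemeasurable
      (measurableSet_le measurable_id.abs measurable_const)).2 ?_
    filter_upwards [hb] with x hx
    rw [abs_mul, abs_of_pos hgl]
    calc γ * lam * |x| ≤ γ * lam * (C₀ + 1) := by gcongr; linarith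
      _ = C₁ * lam := by rw [hC₁]; ring
  have hmean : ∫ x, x ∂(ν.map fun x => (γ * lam) * x) = 0 := by
    rw [integral_map hm2.aemeasurable (by fun_prop), integral_const_mul, hm, mul_zero]
  have hsec : ∫ x, x ^ 2 ∂(ν.map fun x => (γ * lam) * x) = s₂ * (C₁ * lam) ^ 2 := by
    rw [integral_map hm2.aemeasurable (by fun_prop), hs₂, ← integral_mul_const]
    congr 1
    funext x
    rw [hC₁]
    field_simp
  have hvr : 0 < vr (ν.map fun x => (γ * lam) * x) := by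
    refine Pool.Agent.N457.KS.Gapg.vr_pos hCAY (α := 1) _ hmean ?_
    simp only [div_one]
    rw [hsec]
    positivity
  have hσ : 0 < 2 * η / (R + 1) ^ 2 := by positivity
  refine ⟨2 * η / (R + 1) ^ 2, hσ, ?_⟩
  intro ρ' _ hρ' z hz s hs0
  obtain ⟨zr1, zr2, zr3, zr4⟩ := hZR d R η hη0 hηR
  suffices h : s ∈ ZR d R η from (zr3 s h).1
  obtain ⟨hz1, hz2, hz3, hz4⟩ := hz
  have hprob : IsProbabilityMeasure (lev ψ r) := lev_prob ψ _
  have hsupp : ((lev ψ r).conv ρ') (Set.Icc (-(r + r / 8)) (r + r / 8))ᶜ = 0 :=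
    conv_supp _ _ (lev_supp hψ hr0) hρ'
  obtain ⟨K, hKd⟩ : ∃ K : C(UnitAddTorus (Fin d), ℝ),
    K = γ • (lap d - ContinuousMap.const _ a₁) := ⟨_, rfl⟩
  rw [← hKd] at hs0
  obtain ⟨q0, hq0, hq1, hq⟩ := hCX.2.2.1 (r + r / 8) (‖K‖ + ‖z‖) z.im hz3
  have hmain := (hFIX (ν.map fun x => (γ * lam) * x) d ((lev ψ r).conv ρ') (r + r / 8) q0 (wz K z)
    hvr hsupp (hCX.2.2.2 d K z hz3.le) hq0 hq1 ?_).2.2
    (ZR d R η ∩ {s | HL (Lz cL η r D CK) (hz cL η r D CK) s})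
    (zr1.inter (HL_closed _ _)) ?_ (fun s hs => hs.1.1) ?_ s hs0
  · exact hmain.1
  · intro k a ha
    refine hq _ a ?_ ?_ (abs_le.2 ha)
    · refine (norm_sub_le _ _).trans ?_
      rw [Complex.norm_real]
      linarith [K.norm_coe_le_norm k]
    · simp
  · -- nonempty
    have hS1 : (-(η : ℂ) * Complex.I).im = -η := by simp
    have hS2 : ‖(-(η : ℂ) * Complex.I)‖ = η := by
      rw [norm_mul, norm_neg, Complex.norm_I, mul_one, Complex.norm_real, Real.norm_of_nonneg hη0.le]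
    refine ⟨ContinuousMap.const _ (cayx (-(η : ℂ) * Complex.I) 0), ?_, ?_⟩
    · refine zr4 _ (ContinuousMap.const _ (-(η : ℂ) * Complex.I)) fun k => ⟨rfl, ?_, ?_⟩
      · rw [ContinuousMap.const_apply, hS2]; exact hηR
      · rw [ContinuousMap.const_apply, hS1]
    · exact HL_const (hCX.1 _ 0 (by rw [hS1]; linarith)).1
  · rintro s ⟨hsZ, hsH⟩
    -- the mean of the small law
    have hmb8 : |∫ a, a ∂ρ'| ≤ r / 8 := mean_bd hρ'
    have hKk : ∀ k, K k = γ * (lap d k - a₁) := fun k => by rw [hKd]; rfl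
    have hrl : γ * lam ≤ mg := by
      have := mul_le_mul_of_nonneg_left g14 hmg0.le
      calc γ * lam = mg * (γ / mg * lam) := by field_simp
        _ ≤ mg * 1 := this
        _ = _ := mul_one _
    have hrl2 : r ≤ γ * lam / 2 := by
      rw [hr]
      have : lam ^ (2 + κ) ≤ lam := by
        calc lam ^ (2 + κ) ≤ lam ^ (1 : ℝ) := Pw.anti h0 h1 (by linarith)
          _ = lam := Real.rpow_one _
      calc γ * (lam ^ (2 + κ) / 2) ≤ γ * (lam / 2) := by gcongr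
        _ = _ := by ring
    have hmg : |(∫ a, a ∂ρ') / γ| ≤ r := by
      rw [abs_div, abs_of_pos hγ, div_le_iff₀ hγ]
      calc |∫ a, a ∂ρ'| ≤ r / 8 := hmb8
        _ ≤ r * 1 := by linarith
        _ ≤ r * γ := by gcongr
    have hzg0 : 0 ≤ z.re / γ := by positivity
    have hzg1 : z.re / γ ≤ a₂ - a₁ := by
      rw [div_le_iff₀ hγ, hγdef]
      field_simp
      linarith
    have habs := abs_le.1 hmg
    have hst := step hXB hCYL hZR hUX hCX hPSI hcL hψ L (ν.map fun x => (γ * lam) * x)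
      (a₁ := a₁) (γ := γ) (r := r) (η := η) (R := R) (D := D) (CK := CK)
      (eX := CE * lam ^ (2 + 2 * κ)) (A := cA * lam ^ (6 + 2 * κ)) (τ := η / 20)
      (Λ' := 8 * D * Lz cL η r D CK + 2 / hz cL η r D CK)
      hγ1 hr0 h100 hηR hR4 hD1 hCK1 ρ' hρ' ?_ z hz3 ?_ ?_ ?_ ?_ ?_ ?_ ?_ ?_ ?_ ?_ ?_ N3 N2.le s hsZ hsH
    · rw [← hKd] at hst
      exact hst
    · -- Lipschitz
      intro h k
      rw [← hKd, hKk, hKk, ← mul_sub, abs_mul, abs_of_pos hγ, hCKd]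
      have h3 := lap_lip h k
      have h4 : lap d (sft h k) - a₁ - (lap d k - a₁) = lap d (sft h k) - lap d k := by ring
      rw [h4]
      calc γ * |lap d (sft h k) - lap d k| ≤ γ * (4 * Real.pi * n1 h) := by gcongr
        _ = _ := by ring
    · -- size
      intro k
      rw [← hKd]
      have h3 := lap_mem d k
      have h4 : ‖((K k : ℝ) : ℂ) - z‖ ≤ |K k| + (|z.re| + |z.im|) := by
        refine (norm_sub_le _ _).trans ?_
        rw [Complex.norm_real, Real.norm_eq_abs]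
        gcongr
        exact Complex.norm_le_abs_re_add_abs_im z
      rw [abs_of_nonneg hz1, abs_of_pos hz3] at h4
      have h5 : |K k| ≤ γ * (4 * d) := by
        rw [hKk, abs_mul, abs_of_pos hγ]
        gcongr
        rw [abs_le]
        constructor <;> linarith [h3.1, h3.2]
      have h6 : (4 : ℝ) * d ≤ γ * (4 * d) := le_mul_of_one_le_left (by positivity) hγ1
      rw [hDd]
      linarith
    · -- torus
      intro X hX1 hX2 hX3
      have hres := hT2 lam h0 g2 L hodd hL20 (by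
          refine hL2.trans (le_of_eq ?_)
          congr 1) (ν.map fun x => (γ * lam) * x) hbd hmean hsec
        (a₁ + z.re / γ - (∫ a, a ∂ρ') / γ) z.im X (by linarith [habs.2]) (by linarith [habs.1])
        hz3.le hz4 hX1 hX2 (by rw [← hR]; exact hX3)
      intro k
      obtain ⟨r1, r2⟩ := hres k
      refine ⟨?_, ?_⟩
      · rw [hη]; linarith
      · rw [hR]; exact r2
    · -- transfer
      intro m k₀ j hmn' hml
      have hw : 0 < 2 * (η * r ^ 2 / (16 * D ^ 2)) / (D + 1) ^ 2 := by positivity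
      have hq01 : 0 ≤ 1 - 2 * (η * r ^ 2 / (16 * D ^ 2)) / (D + 1) ^ 2 := (norm_nonneg _).trans hmn'
      have hL0' : 0 ≤ 8 * D * Lz cL η r D CK + 2 / hz cL η r D CK := by positivity
      refine htra L (ν.map fun x => (γ * lam) * x) m _ _ (η / 20) k₀ j hq01 (by linarith) hmn' hL0'
        (by positivity) (by linarith) hml ?_
      rw [sub_sub_cancel]
      calc C * ((1 + (8 * D * Lz cL η r D CK + 2 / hz cL η r D CK)) /
          (η / 20 * (2 * (η * r ^ 2 / (16 * D ^ 2)) / (D + 1) ^ 2))) ^ p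
          ≤ C * (lam⁻¹ ^ 134) ^ p := by
            have h3 : 0 ≤ (1 + (8 * D * Lz cL η r D CK + 2 / hz cL η r D CK)) /
              (η / 20 * (2 * (η * r ^ 2 / (16 * D ^ 2)) / (D + 1) ^ 2)) := by positivity
            have := pow_le_pow_left₀ h3 N4 p
            gcongr
        _ = C * lam ^ (-(134 * p : ℝ)) := by
            congr 1
            rw [← pow_mul, Real.rpow_neg h0.le, inv_pow]
            congr 1
            rw [← Real.rpow_natCast]
            push_cast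
            rfl
        _ = (C * lam) * lam ^ (-(134 * p + 1 : ℝ)) := by
            rw [mul_assoc]
            congr 1
            conv_rhs => rw [← Real.rpow_one lam, ← Real.rpow_mul h0.le, one_mul, Pw.mul h0]
            congr 1; ring
        _ ≤ 1 * lam ^ (-(134 * p + 1 : ℝ)) := by
            have := Pw.pos h0 (-(134 * p + 1 : ℝ))
            gcongr
        _ ≤ lam ^ (-(134 * p + 21 : ℝ)) := by
            rw [one_mul]
            exact Pw.anti h0 h1 (by linarith)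
        _ ≤ L := hL1
    · -- e1
      have h3 : 50 * r ^ 2 / η = 25 * γ ^ 2 / c₁ * lam ^ (2 + 2 * κ) := by
        have h4 : (lam ^ (2 + κ)) ^ 2 = lam ^ (2 + 2 * κ) * lam ^ 2 := by
          rw [Pw.pow h0, e2, Pw.mul h0]
          congr 1
          push_cast
          ring
        rw [hr, hη, mul_pow, div_pow, h4]
        field_simp
        norm_num
      have h4 : 13 * d * γ / L ≤ lam ^ (2 + 2 * κ) :=
        hLd'.trans (Pw.anti h0 h1 (by linarith))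
      rw [h3, hCEd, add_mul, one_mul]
      linarith
    · -- e2
      rw [hcAd, hη, hr]
      have h4 : (lam ^ (2 + κ)) ^ 2 * lam ^ 2 = lam ^ (6 + 2 * κ) := by
        rw [Pw.pow h0, e2, Pw.mul h0]
        congr 1
        push_cast
        ring
      rw [← h4]
      apply le_of_eq
      ring
    · exact mul_nonneg hcA.le (Pw.pos h0 _).le
    · -- e3
      rw [hR, Pw.pow h0]
      calc cA * lam ^ (6 + 2 * κ) = (cA * lam ^ κ) * lam ^ (6 + κ) := by
            rw [mul_assoc, Pw.mul h0]; congr 2; ring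
        _ ≤ 1 * lam ^ (6 + κ) := by
            have := Pw.pos h0 (6 + κ)
            gcongr
        _ ≤ lam ^ ((3 : ℕ) * (2 - u)) := by
            rw [one_mul]
            refine Pw.anti h0 h1 ?_
            push_cast
            linarith
    · -- e4
      have h3 : 13 * d * γ / L ≤ R / 2 := by
        refine hLd'.trans ?_
        rw [hR]
        calc lam ^ (20 : ℝ) ≤ lam ^ (3 - u) := Pw.anti h0 h1 (by linarith)
          _ = lam ^ (2 - u) * lam := by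
            conv_rhs => rw [← Real.rpow_one lam, ← Real.rpow_mul h0.le, one_mul, Pw.mul h0]
            congr 1; ring
          _ ≤ lam ^ (2 - u) * (1 / 2) := by
            have := Pw.pos h0 (2 - u)
            gcongr
          _ = _ := by ring
      linarith
    · linarith
    · have : 0 ≤ 2 / hz cL η r D CK := by positivity
      linarith
    · have : 0 ≤ 8 * D * Lz cL η r D CK := by positivity
      linarith

end

end Pool.Agent.Run7.h442.B2
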